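import Pool.Agent.H846.Det.DetDefs
import Pool.Graph.R_pool_sql_team_seeded_b0a926ef.R911.Iso.Defs

/-!
# Varieties of hyperkähler type and detection by divisors on specializations: definitions
-/

open CategoryTheory AlgebraicGeometry

universe u v

namespace Pool.Agent.H846.HKn

section Alg

variable {K A : Type*}

/-- Fujiki's relation in dimension `2 n` for the form `q` on the elements with the property `V`
(the cohomology classes of degree two): `q` is symmetric and `tr (x ^ (2 n)) = c (q x x) ^ n`. -/
structure Fujiki [Monoid K] [Monoid A] (tr : A → K) (V : A → Prop) (q : A → A → K) (c : K)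
    (n : ℕ) : Prop where
  symm : ∀ x y, V x → V y → q x y = q y x
  rel : ∀ x, V x → tr (x ^ (2 * n)) = c * q x x ^ n

/-- The element `c` is orthogonal to the products of two elements with the property `V`. -/
def OrthToProducts [Zero K] [Mul A] (tr : A → K) (V : A → Prop) (c : A) : Prop :=
  ∀ x y, V x → V y → tr (x * y * c) = 0

/-- The element `a` is a product of two elements with the property `V`, or is one of the
elements `r j`. -/
def IsProductOr [Mul A] (V : A → Prop) {m : ℕ} (r : Fin m → A) (a : A) : Prop :=
  (∃ x y, V x ∧ V y ∧ a = x * y) ∨ ∃ j, a = r j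

/-- The element `x` is a linear combination of elements with the property `p`. -/
def InSpan (K : Type*) [Field K] {A : Type*} [AddCommGroup A] [Module K A] (p : A → Prop)
    (x : A) : Prop :=
  ∀ U : Submodule K A, (∀ y, p y → y ∈ U) → x ∈ U

/-- The bilinear forms on the vector space `A`. -/
abbrev Form (K : Type*) [Field K] (A : Type*) [AddCommGroup A] [Module K A] :=
  A →ₗ[K] A →ₗ[K] K

/-- The value of a bilinear form. -/
def formVal {K : Type*} [Field K] {A : Type*} [AddCommGroup A] [Module K A] (q : Form K A)
    (x y : A) : K := q x y

/-- The rational matrix `M` is positive definite. -/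
def PosMatrix {m : ℕ} (M : Fin m → Fin m → ℚ) : Prop :=
  ∀ a : Fin m → ℚ, a ≠ 0 → 0 < ∑ i, ∑ j, a i * a j * M i j

/-- The map `g` is a combination with rational coefficients of the iterates `f, f ^ 2, …` of the
map `f`. -/
def IsPolynomialIn {K : Type*} [Field K] {A : Type*} [AddCommGroup A] [Module K A]
    (f g : A → A) : Prop :=
  ∃ (N : ℕ) (c : Fin N → ℚ), ∀ a, g a = ∑ i, (c i : K) • f^[i + 1] a

end Alg

open Pool.Agent.H914 Pool.Agent.H914.VarClass Pool.Agent.H914.VarClass.Obj
  Pool.Agent.H281R3.HT Pool.Agent.R911.Iso Pool.Agent.W539.Ker Pool.Agent.H846.Det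

variable {k : Type u} [Field k] {𝒱 : VarClass k} {ops : CycleOps 𝒱}
  {k₀ : Type u} [Field k₀] {𝒱₀ : VarClass k₀} {ops₀ : CycleOps 𝒱₀}

/-- The standard conjecture of Hodge type in codimension `n` for the polarized variety `P`: the
number `(-1) ^ n deg (z · D ^ (dim X - 2 n) · z)` is positive for all primitive cycles `z` of
codimension `n` which are not numerically equivalent to zero. -/
def HodgeIn (W : WeilCohomology.{u, v} ops) (P : Polarized 𝒱) (n : ℕ) : Prop :=
  ∀ z, Primitive W P.X P.D n z → ¬ NumZero ops P.X n z → 0 < pairing ops P.X P.D n z z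

section One

variable (W : WeilCohomology.{u, v} ops) (X : 𝒱.Obj)

/-- The trace of a cohomology class. -/
noncomputable def trOf (x : W.H X) : W.K := W.tr X x

/-- The cohomology class `x` has degree `i`. -/
def InDeg (i : ℕ) (x : W.H X) : Prop := x ∈ W.gr X i

/-- The cycles `r 1, …, r m` of codimension two on `X` are orthogonal to the products of classes
of degree two for the pairing `tr (x y D ^ (dim X - 4))`, and the matrix of the numbers
`deg (r i · r j · D ^ (dim X - 4))` is positive definite. -/
structure Complement (D : X.Cycles) {m : ℕ} (r : Fin m → X.Cycles) : Prop where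
  isCyc : ∀ i, X.IsCyc 2 (r i)
  orth : ∀ i, OrthToProducts (trOf W X) (InDeg W X 2)
    (classOf W X (divPow ops D (X.dim - 4) (r i)))
  pos : PosMatrix fun i j => pairing ops X D 2 (r i) (r j)

/-- The classes of algebraic cycles of codimension two on `X` are linear combinations (with
coefficients in the coefficient field) of products of classes of degree two and of the classes of
the cycles `r 1, …, r m`. -/
def GeneratedBy {m : ℕ} (r : Fin m → X.Cycles) : Prop :=
  ∀ z, X.IsCyc 2 z → InSpan W.K (IsProductOr (InDeg W X 2) fun j => classOf W X (r j))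
    (classOf W X z)

/-- The variety `X` has even dimension `2 n`, its cohomology of degree two satisfies Fujiki's
relation, and its algebraic classes of codimension two are generated by the products of classes of
degree two together with algebraic classes which are orthogonal to these products and whose
intersection matrix (with respect to the divisor `D`) is positive definite. No additional classes
are needed if the cohomology of degree four is the symmetric square of the cohomology of degree
two, for example for the varieties deformation equivalent to the Hilbert square of a K3 surface or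
to O'Grady's variety of dimension ten. -/
structure IsFujikiVariety (D : X.Cycles) (n : ℕ) : Prop where
  dim_eq : X.dim = 2 * n
  rel : ∃ (q : Form W.K (W.H X)) (c : W.K), Fujiki (trOf W X) (InDeg W X 2) (formVal q) c n
  gen : ∃ (m : ℕ) (r : Fin m → X.Cycles), Complement W X D r ∧ GeneratedBy W X r

/-- The cycle `t` of codimension `dim X` on `X × X` acts as zero on the cohomology in degrees
different from two, maps the cohomology of degree two to itself, and is symmetric for the form
`tr (x y D ^ (dim X - 2))` on it. -/
structure IsSymmetricInDegreeTwo (D : X.Cycles) (t : (X.prod X).Cycles) : Prop where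
  isCyc : (X.prod X).IsCyc X.dim t
  zero : ∀ j ≠ 2, ∀ a, InDeg W X j a → corrMap W t a = 0
  mem : ∀ a, InDeg W X 2 a → InDeg W X 2 (corrMap W t a)
  symm : ∀ a b, InDeg W X 2 a → InDeg W X 2 b →
    trOf W X (corrMap W t a * b * classOf W X (divPow ops D (X.dim - 2) X.V.fundCycle)) =
      trOf W X (a * corrMap W t b * classOf W X (divPow ops D (X.dim - 2) X.V.fundCycle))

/-- The cycle `e` of codimension `dim X` on `X × X` induces a nonzero idempotent operator on the
cohomology, which is a combination with rational coefficients of powers of the operator of the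
cycle `t`. -/
structure IsIdempotentIn (t e : (X.prod X).Cycles) : Prop where
  isCyc : (X.prod X).IsCyc X.dim e
  idem : ∀ a, corrMap W e (corrMap W e a) = corrMap W e a
  ne : ∃ a, corrMap W e a ≠ 0
  poly : IsPolynomialIn (K := W.K) (corrMap W t) (corrMap W e)

end One

/-- The comparison of `P` over `k` with a polarized variety `P₀` over another field `k₀` (for
example a specialisation, or a specialisation of a lifting): an isomorphism of the cohomology
rings. -/
structure Place (W : WeilCohomology.{u, v} ops) (W₀ : WeilCohomology.{u, v} ops₀)
    (P : Polarized 𝒱) (P₀ : Polarized 𝒱₀) where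
  /-- the isomorphism of the coefficient fields -/
  σ : CoefIso W W₀
  /-- the comparison isomorphism -/
  s : CohIso W W₀ P.X P₀.X
  comp : IsComparison W W₀ P P₀ σ s

/-- The intersection number of the image of the divisor `w` under the correspondence `e` with the
cycle `y` is not zero. -/
def PairsNontrivially (W : WeilCohomology.{u, v} ops) (X : 𝒱.Obj) (e : (X.prod X).Cycles)
    (w y : X.Cycles) : Prop :=
  trOf W X (corrMap W e (classOf W X w) * classOf W X y) ≠ 0

/-- The Hodge index theorem holds for `X₀` (the standard conjecture of Hodge type in the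
codimensions zero and one), and the intersection number of the image under `e₀` of a divisor `w`
on `X₀` with a cycle `y` of dimension one is not zero. -/
def SeenByDivisor (W₀ : WeilCohomology.{u, v} ops₀) (P₀ : Polarized 𝒱₀)
    (e₀ : (P₀.X.prod P₀.X).Cycles) : Prop :=
  HodgeIn W₀ P₀ 0 ∧ HodgeIn W₀ P₀ 1 ∧ ∃ w y : P₀.X.Cycles,
    P₀.X.IsCyc 1 w ∧ P₀.X.IsCyc (P₀.X.dim - 1) y ∧ PairsNontrivially W₀ P₀.X e₀ w y

/-- The correspondences `t` and `e` on `X` correspond to correspondences `t₀` and `e₀` on `X₀`, and
either a divisor on `X₀` and the Hodge index theorem for `X₀` detect `e₀`, or the standard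
conjecture of Hodge type holds for `X₀ × X₀` (for example because `X₀` is a lifting of `X` to
characteristic zero). -/
def DetectedAt {W : WeilCohomology.{u, v} ops} {W₀ : WeilCohomology.{u, v} ops₀}
    {P : Polarized 𝒱} {P₀ : Polarized 𝒱₀} (S : Place W W₀ P P₀)
    (t e : (P.X.prod P.X).Cycles) : Prop :=
  ∃ t₀ e₀ : (P₀.X.prod P₀.X).Cycles,
    (P₀.X.prod P₀.X).IsCyc P₀.X.dim t₀ ∧ SpecializesTo S.s S.s t t₀ ∧
    SpecializesTo S.s S.s e e₀ ∧
    (SeenByDivisor W₀ P₀ e₀ ∨ Hodge W₀ (P₀.prod ops₀ P₀))

/-- The idempotent `e` attached to the correspondence `t` on the variety `X` of `P` is detected at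
some place: on a variety `X₀` over some field `k₀`, with the same cohomology ring, to which `X`
and `t` specialise or lift and which satisfies the Lefschetz standard conjecture. -/
def DetectedSomewhere (W : WeilCohomology.{u, v} ops) (P : Polarized 𝒱)
    (t e : (P.X.prod P.X).Cycles) : Prop :=
  ∃ (k₀ : Type u) (_ : Field k₀) (𝒱₀ : VarClass k₀) (ops₀ : CycleOps 𝒱₀)
    (W₀ : WeilCohomology.{u, v} ops₀) (P₀ : Polarized 𝒱₀) (S : Place W W₀ P P₀),
    IsLefschetz W₀ P₀ ∧ DetectedAt S t e

end Pool.Agent.H846.HKn
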