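import Pool.Agent.H846.HKn.Main

/-!
# The primitive classes of codimension two in the symmetric square
-/

open CategoryTheory AlgebraicGeometry Finset

universe u v

namespace Pool.Agent.H846.HKn

open Pool.Agent.H914 Pool.Agent.H914.VarClass Pool.Agent.H914.VarClass.Obj
  Pool.Agent.H914.WeilCohomology Pool.Agent.H281R3.HT Pool.Agent.W552 Pool.Agent.W539.Ker
  Pool.Agent.R911.Iso Pool.Agent.H447 Pool.Agent.H846.Det

variable {k : Type u} [Field k] {𝒱 : VarClass k} {ops : CycleOps 𝒱}
  {W : WeilCohomology.{u, v} ops}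

/-- The trace of the projection. -/
lemma trace_proj (X : 𝒱.Obj) : LinearMap.trace W.K (W.H X) (proj (W.isInternal X) 2) =
    (Module.finrank W.K (W.gr X 2) : W.K) := by
  have h2 := LinearMap.trace_restrict_eq_of_forall_mem (W.gr X 2) (proj (W.isInternal X) 2)
    (fun x => proj_mem _ _ x)
  rw [← h2]
  have h3 : (proj (W.isInternal X) 2).restrict (fun x _ => proj_mem (W.isInternal X) 2 x) =
      (1 : Module.End W.K (W.gr X 2)) := by
    apply LinearMap.ext
    intro x
    apply Subtype.ext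
    exact proj_same (W.isInternal X) x.2
  rw [h3, LinearMap.trace_one]

section

variable {P : Polarized 𝒱} {f : Module.End W.K (W.H P.X)} (G : Gd W P.X P.D f)
  (h1 : (1 : W.H P.X) ≠ 0) (hH0 : HodgeIn W P 0)
  (hdet : ∀ t e, IsSymmetricInDegreeTwo W P.X P.D t → IsIdempotentIn W P.X t e →
    DetectedSomewhere W P t e)

include G h1

lemma D_ne (hd : P.X.dim ≠ 0) : W.cl P.X P.D ≠ 0 := by
  intro h0
  apply tr_D_ne G h1
  rw [h0, zero_pow hd, map_zero]

include hH0

/-- The degree of the divisor is positive. -/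
lemma deg_pos : ∃ q : ℚ, 0 < q ∧ W.tr P.X (W.cl P.X P.D ^ P.X.dim) = q := by
  obtain ⟨q, hq0, hq⟩ := bf_nonneg_le G.fr (l := 0) (c := 1) (by
    intro n hn _ z hz hz'
    interval_cases n
    exact hH0 z hz hz') alg_one
  have h4 := bf_L_pow G.fr (n := 0) (by omega) (x := 1) (W.one_mem P.X) (by
    have := pow_L_mem (mulLeft_isHom (W := W) G.fr.hD) (W.one_mem P.X) (P.X.dim - 2 * 0 + 1)
    rw [W.gr_eq_bot P.X _ (by omega)] at this
    exact (Submodule.mem_bot _).1 this) (j := 0) (by omega) 1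
  rw [pow_zero, Module.End.one_apply, hq, Nat.mul_zero, Nat.sub_zero, Nat.sub_zero,
    LinearMap.pow_mulLeft, LinearMap.mulLeft_apply, mul_one, one_mul, pow_zero, one_mul] at h4
  have hf : ((P.X.dim.factorial : ℚ) : W.K) ≠ 0 := by
    rw [Ne, Rat.cast_eq_zero]
    positivity
  have h6 : W.tr P.X (W.cl P.X P.D ^ P.X.dim) = ((P.X.dim.factorial * q : ℚ) : W.K) := by
    rw [Rat.cast_mul, h4]
    push_cast
    push_cast at hf
    rw [Nat.factorial_zero, Nat.cast_one, one_mul, mul_inv_cancel_left₀ hf]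
  have h7 := tr_D_ne G h1
  refine ⟨P.X.dim.factorial * q, ?_, h6⟩
  rcases hq0.lt_or_eq with h8 | h8
  · positivity
  · exfalso
    apply h7
    rw [h6, ← h8]
    simp

include hdet

/-- **The squares of the primitive algebraic classes in the symmetric square are nonnegative.** -/
theorem sym_nonneg {q : W.H P.X →ₗ[W.K] W.H P.X →ₗ[W.K] W.K} {c : W.K} {m : ℕ}
    (hd : P.X.dim = 2 * m + 4)
    (hF : Fujiki (fun x => W.tr P.X x) (fun x => x ∈ W.gr P.X 2) (fun x y => q x y) c (m + 2))
    {n : ℕ} (x y : Fin n → W.gr P.X 2)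
    {z : P.X.Cycles} (hz : P.X.IsCyc 2 z) (hzx : W.cl P.X z = ∑ i, (x i : W.H P.X) * y i)
    (hL : W.cl P.X P.D * (W.cl P.X P.D ^ (2 * m) * ∑ i, (x i : W.H P.X) * y i) = 0) :
    ∃ r : ℚ, 0 ≤ r ∧
      W.tr P.X (W.cl P.X P.D ^ (2 * m) * (W.cl P.X z * W.cl P.X z)) = r := by
  have h2 := tr_sq hF G hd h1 x y hL
  have hL' := hL
  rw [← hzx] at h2 hL'
  have hza : W.cl P.X (divPow ops P.D (2 * m) z) = W.cl P.X P.D ^ (2 * m) * W.cl P.X z := by
    rw [cl_divPow, LinearMap.pow_mulLeft, LinearMap.mulLeft_apply]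
  have hzc : P.X.IsCyc (2 * m + 2) (divPow ops P.D (2 * m) z) := by
    have := divPow_mem (ops := ops) G.fr.hD (2 * m) hz
    rwa [add_comm] at this
  rw [← hza] at hL'
  rw [← hza] at h2
  set α := W.cl P.X (divPow ops P.D (2 * m) z) with hα
  set S := sop W P.X P.D f m α with hS
  have hz4 : α ∈ W.gr P.X (2 * (2 * m + 2)) := W.cl_mem hzc
  have hSa : AOp W P.X P.X S := sop_aop G hzc
  obtain ⟨τ, hτ⟩ := G.trace_rat hSa
  obtain ⟨d, hd0, hdd⟩ := deg_pos G h1 hH0
  rw [hd] at hdd
  set b := Module.finrank W.K (W.gr P.X 2) with hb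
  have hb0 : 0 < b := by
    apply Module.finrank_pos_iff_exists_ne_zero.2
    refine ⟨dv W G.fr.hD, ?_⟩
    intro h0
    exact D_ne G h1 (by omega) (congrArg Subtype.val h0)
  set π := proj (W.isInternal P.X) 2 with hπ
  have hπS : π * S = S := by
    apply LinearMap.ext
    intro v
    exact proj_same _ (sop_mem G hd hz4 v)
  have hSπ : S * π = S := by
    apply gr_ext (W.isInternal P.X)
    intro j v hv
    rw [Module.End.mul_apply]
    by_cases hj : j = 2
    · subst hj
      rw [hπ, proj_same _ hv]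
    · rw [hπ, proj_ne _ hv hj, map_zero, hS, sop_ne hv hj]
  have hππ : π * π = π := proj_mul_proj _ _
  obtain ⟨r, hr0, hr⟩ := trace_sq_nonneg G h1 (by omega) hdet
    (B := S + ((-(τ / b) : ℚ) : W.K) • π)
    (hSa.add ((proj_aop' G 2).smul _))
    (by
      intro v w
      have e1 : bf W P.X P.D f (π v) w = bf W P.X P.D f v (π w) := by
        refine gr_induction (W.isInternal P.X) (p := fun v => bf W P.X P.D f (π v) w =
          bf W P.X P.D f v (π w)) ?_ ?_ v
        swap
        · intro v v' hv hv'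
          rw [map_add, map_add, LinearMap.add_apply, hv, hv', map_add, LinearMap.add_apply]
        intro i v hv
        refine gr_induction (W.isInternal P.X) (p := fun w => bf W P.X P.D f (π v) w =
          bf W P.X P.D f v (π w)) ?_ ?_ w
        swap
        · intro w w' hw hw'
          rw [map_add, hw, hw', map_add, map_add]
        intro j w hw
        by_cases hi : i = 2
        · subst hi
          rw [hπ, proj_same _ hv]
          by_cases hj : j = 2
          · subst hj
            rw [proj_same _ hw]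
          · rw [proj_ne _ hw hj, map_zero]
            exact G.fr.bf_deg hv hw (Ne.symm hj)
        · rw [hπ, proj_ne _ hv hi, map_zero, LinearMap.zero_apply]
          exact (G.fr.bf_deg hv (proj_mem _ _ _) hi).symm
      rw [LinearMap.add_apply, LinearMap.smul_apply, LinearMap.add_apply, LinearMap.smul_apply,
        map_add, LinearMap.add_apply, map_add, sop_adj G hd hz4, map_smul, LinearMap.smul_apply,
        map_smul, e1])
    (by
      intro v
      exact add_mem (sop_mem G hd hz4 v) (Submodule.smul_mem _ _ (proj_mem _ _ v)))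
    (by
      intro j hj v hv
      rw [LinearMap.add_apply, LinearMap.smul_apply, hS, sop_ne hv hj, hπ, proj_ne _ hv hj,
        smul_zero, add_zero])
    (by
      intro v hv w hw
      rw [LinearMap.add_apply, LinearMap.add_apply, LinearMap.smul_apply, LinearMap.smul_apply,
        hπ, proj_same _ hv, proj_same _ hw, add_mul, mul_add, mul_add, mul_add, map_add, map_add,
        smul_mul_assoc, mul_smul_comm, mul_smul_comm, mul_smul_comm]
      congr 1
      rw [show P.X.dim - 2 = 2 * m + 2 by omega, ← mul_assoc, sop_spec G hd hz4 hL' hv]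
      have e1 : v * S w = S w * v := even_comm (i := 1) hv _
      rw [e1, ← mul_assoc, sop_spec G hd hz4 hL' hw, mul_assoc, mul_assoc]
      congr 2
      exact even_comm (i := 1) hv _)
  have hexp : (S + ((-(τ / b) : ℚ) : W.K) • π) * (S + ((-(τ / b) : ℚ) : W.K) • π) =
      S * S + (2 * ((-(τ / b) : ℚ) : W.K)) • S +
        (((-(τ / b) : ℚ) : W.K) * ((-(τ / b) : ℚ) : W.K)) • π := by
    rw [add_mul, mul_add, mul_add, mul_smul_comm, smul_mul_assoc, smul_mul_smul_comm, hSπ, hπS,
      hππ, two_mul, add_smul]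
    abel
  rw [hexp, map_add, map_add, map_smul, map_smul, hτ, trace_proj, smul_eq_mul,
    smul_eq_mul] at hr
  have hb1 : (b : ℚ) ≠ 0 := by exact_mod_cast hb0.ne'
  have h3 : LinearMap.trace W.K (W.H P.X) (S * S) = ((r + τ ^ 2 / b : ℚ) : W.K) := by
    have h4 : (((-(τ / b) : ℚ) : W.K) * ((-(τ / b) : ℚ) : W.K)) * (b : W.K) +
        2 * ((-(τ / b) : ℚ) : W.K) * (τ : W.K) = ((-(τ ^ 2 / b) : ℚ) : W.K) := by
      have h5 : (-(τ / b)) * (-(τ / b)) * b + 2 * (-(τ / b)) * τ = -(τ ^ 2 / b) := by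
        field_simp
        ring
      rw [← h5]
      push_cast
      ring
    have h6 : LinearMap.trace W.K (W.H P.X) (S * S) = (r : W.K) - ((-(τ ^ 2 / b) : ℚ) : W.K) := by
      rw [← hr, ← h4]
      ring
    rw [h6]
    push_cast
    ring
  rw [h3, hdd, hτ] at h2
  refine ⟨(2 * m + 1) * d * ((r + τ ^ 2 / b) - τ ^ 2 / (b + 2 * m + 2)) / (2 * (2 * m + 3)),
    ?_, ?_⟩
  · have h4 : τ ^ 2 / ((b : ℚ) + 2 * m + 2) ≤ τ ^ 2 / b := by
      apply div_le_div_of_nonneg_left (sq_nonneg τ) (by positivity)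
      have : (0 : ℚ) ≤ m := Nat.cast_nonneg _
      linarith
    have h5 : 0 ≤ (r + τ ^ 2 / b) - τ ^ 2 / (b + 2 * m + 2) := by linarith
    positivity
  · have h9 : (2 * (2 * m + 3) : W.K) ≠ 0 := by
      have : ((2 * (2 * m + 3) : ℕ) : W.K) ≠ 0 := Nat.cast_ne_zero.2 (by omega)
      push_cast at this
      exact this
    apply mul_left_cancel₀ h9
    have h10 : (2 * (2 * m + 3) : ℚ) ≠ 0 := by positivity
    have h11 : (2 * (2 * m + 3) : W.K) * (((2 * m + 1) * d * ((r + τ ^ 2 / b) -
        τ ^ 2 / (b + 2 * m + 2)) / (2 * (2 * m + 3)) : ℚ) : W.K) =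
        (((2 * m + 1) * d * ((r + τ ^ 2 / b) - τ ^ 2 / (b + 2 * m + 2)) : ℚ) : W.K) := by
      rw [show (2 * (2 * m + 3) : W.K) = ((2 * (2 * m + 3) : ℚ) : W.K) by push_cast; ring,
        ← Rat.cast_mul]
      congr 1
      field_simp
    rw [h11]
    rw [h2]
    push_cast
    ring

end

end Pool.Agent.H846.HKn
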