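import Pool.Agent.H846.HKn.Op

/-!
# The intersection form on the symmetric square of the cohomology of degree two
-/

open CategoryTheory AlgebraicGeometry Finset

universe u v

namespace Pool.Agent.H846.HKn

open Pool.Agent.H914 Pool.Agent.H914.VarClass Pool.Agent.H914.VarClass.Obj
  Pool.Agent.H914.WeilCohomology Pool.Agent.H281R3.HT Pool.Agent.W552 Pool.Agent.W539.Ker
  Pool.Agent.R911.Iso Pool.Agent.H447 Pool.Agent.H846.Det

lemma pow_one' {K : Type*} [Field K] {d : K} (hd : d ≠ 0) (m : ℕ) :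
    (m : K) * d ^ (m - 1) = m * (d ^ m / d) := by
  rcases m with _ | m
  · simp
  · rw [Nat.add_sub_cancel, pow_succ, mul_div_cancel_right₀ _ hd]

lemma pow_two' {K : Type*} [Field K] {d : K} (hd : d ≠ 0) (m : ℕ) :
    (m : K) * (m - 1) * d ^ (m - 2) = m * (m - 1) * (d ^ m / d ^ 2) := by
  rcases m with _ | _ | m
  · simp
  · simp
  · rw [show m + 1 + 1 - 2 = m by omega, show m + 1 + 1 = m + 2 by omega, pow_add,
      mul_div_cancel_right₀ _ (pow_ne_zero _ hd)]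

variable {k : Type u} [Field k] {𝒱 : VarClass k} {ops : CycleOps 𝒱}
  {W : WeilCohomology.{u, v} ops} {X : 𝒱.Obj} {D : X.Cycles} {f : Module.End W.K (W.H X)}

/-- The divisor class in the cohomology of degree two. -/
noncomputable def dv (W : WeilCohomology.{u, v} ops) {X : 𝒱.Obj} {D : X.Cycles}
    (hD : X.IsCyc 1 D) : W.gr X 2 := ⟨W.cl X D, W.cl_mem hD⟩

lemma pow_mem_gr (hD : X.IsCyc 1 D) (j : ℕ) : W.cl X D ^ j ∈ W.gr X (2 * j) := by
  induction j with
  | zero => rw [pow_zero]; exact W.one_mem X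
  | succ j ih =>
    rw [pow_succ]
    exact W.mul_mem ih (W.cl_mem hD)

/-- The degree of the divisor. -/
lemma tr_D_ne (G : Gd W X D f) (h1' : (1 : W.H X) ≠ 0) :
    W.tr X (W.cl X D ^ X.dim) ≠ 0 := by
  intro h0
  set L := LinearMap.mulLeft W.K (W.cl X D) with hL
  have h1 : (L ^ (X.dim - 0)) (1 : W.H X) = W.cl X D ^ X.dim := by
    rw [Nat.sub_zero, hL, LinearMap.pow_mulLeft, LinearMap.mulLeft_apply, mul_one]
  have h2 : (L ^ (X.dim - 0)) (1 : W.H X) = 0 := by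
    rw [h1]
    apply eq_zero_of_tr (j := 0) (pow_mem_gr G.fr.hD X.dim) (by omega)
    intro b hb
    rw [W.gr_zero, Submodule.mem_span_singleton] at hb
    obtain ⟨r, rfl⟩ := hb
    rw [smul_mul_assoc, one_mul, map_smul, h0, smul_zero]
  exact h1' ((hardLefschetz_of_fr G.fr 0 (by omega)).1 1 (W.one_mem X) h2)

section Fujiki

variable {q : W.H X →ₗ[W.K] W.H X →ₗ[W.K] W.K} {c : W.K} {m : ℕ}
  (hF : Fujiki (fun x => W.tr X x) (fun x => x ∈ W.gr X 2) (fun x y => q x y) c (m + 2))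
  (hD : X.IsCyc 1 D)

/-- The restriction of the form to the cohomology of degree two. -/
noncomputable abbrev rq (q : W.H X →ₗ[W.K] W.H X →ₗ[W.K] W.K) :
    W.gr X 2 →ₗ[W.K] W.gr X 2 →ₗ[W.K] W.K := q.domRestrict₁₂ (W.gr X 2) (W.gr X 2)

include hF

lemma rq_symm (x y : W.gr X 2) : rq q x y = rq q y x := hF.symm x y x.2 y.2

lemma fuj0 (x : W.gr X 2) :
    W.tr X ((x : W.H X) ^ (2 * m + 4)) = c * (rq q x x) ^ (m + 2) := by
  have := hF.rel x x.2
  rw [show 2 * (m + 2) = 2 * m + 4 by ring] at this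
  exact this

lemma fuj1 (x y : W.gr X 2) :
    W.tr X ((x : W.H X) ^ (2 * m + 3) * y) = c * (rq q x x) ^ (m + 1) * rq q x y :=
  pol1 (V := W.gr X 2) (fun x hx a => even_comm (i := 1) hx a)
    (fun x hx y hy => hF.symm x y hx hy)
    (fun x hx => fuj0 hF ⟨x, hx⟩) x.2 y.2

lemma fuj2 (x y z : W.gr X 2) :
    (2 * m + 3) * W.tr X ((x : W.H X) ^ (2 * m + 2) * z * y) =
      c * (2 * (m + 1) * (rq q x x) ^ m * rq q x z * rq q x y +
      (rq q x x) ^ (m + 1) * rq q z y) :=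
  pol2 (V := W.gr X 2) (fun x hx a => even_comm (i := 1) hx a)
    (fun x hx y hy => hF.symm x y hx hy)
    (fun x hx y hy => fuj1 hF ⟨x, hx⟩ ⟨y, hy⟩) x.2 y.2 z.2

lemma fuj3 (x y z w : W.gr X 2) :
    (2 * m + 3) * W.tr X ((x : W.H X) ^ (2 * m + 1) * w * z * y) =
      c * (2 * m * (rq q x x) ^ (m - 1) * rq q x w * rq q x z * rq q x y +
        (rq q x x) ^ m * (rq q w z * rq q x y + rq q x z * rq q w y + rq q x w * rq q z y)) :=
  pol3 (V := W.gr X 2) (fun x hx a => even_comm (i := 1) hx a)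
    (fun x hx y hy => hF.symm x y hx hy)
    (fun x hx y hy z hz => fuj2 hF ⟨x, hx⟩ ⟨y, hy⟩ ⟨z, hz⟩) x.2 y.2 z.2 w.2

lemma fuj4 (x y z w u : W.gr X 2) :
    (2 * m + 3) * (2 * m + 1) * W.tr X ((x : W.H X) ^ (2 * m) * u * w * z * y) =
      c * (4 * m * (m - 1) * (rq q x x) ^ (m - 2) *
          (rq q x u * rq q x w * rq q x z * rq q x y) +
        2 * m * (rq q x x) ^ (m - 1) * (rq q u w * rq q x z * rq q x y +
          rq q x w * rq q u z * rq q x y + rq q x w * rq q x z * rq q u y +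
          rq q x u * (rq q w z * rq q x y + rq q x z * rq q w y + rq q x w * rq q z y)) +
        (rq q x x) ^ m * (rq q w z * rq q u y + rq q u z * rq q w y + rq q u w * rq q z y)) :=
  pol4 (V := W.gr X 2) (fun x hx a => even_comm (i := 1) hx a)
    (fun x hx y hy => hF.symm x y hx hy)
    (fun x hx y hy z hz w hw => fuj3 hF ⟨x, hx⟩ ⟨y, hy⟩ ⟨z, hz⟩ ⟨w, hw⟩) x.2 y.2 z.2 w.2 u.2

end Fujiki

end Pool.Agent.H846.HKn
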