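import Pool.Agent.H846.HKn.SpanDefs
import Pool.Agent.H846.HKn.Strict

/-!
# Detection if the cohomology of degree two is spanned by divisor classes of specialisations
-/

open CategoryTheory AlgebraicGeometry Finset

universe u v

namespace Pool.Agent.H846.HKn

open Pool.Agent.H914 Pool.Agent.H914.VarClass Pool.Agent.H914.VarClass.Obj
  Pool.Agent.H914.WeilCohomology Pool.Agent.H281R3.HT Pool.Agent.W552 Pool.Agent.W539.Ker
  Pool.Agent.R911.Iso Pool.Agent.H447 Pool.Agent.H846.Det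

variable {k : Type u} [Field k] {𝒱 : VarClass k} {ops : CycleOps 𝒱}
  {W : WeilCohomology.{u, v} ops}

lemma corrMap_zero' {X Y : 𝒱.Obj} (z : (X.prod Y).Cycles) : corrMap W z (0 : W.H X) = 0 := by
  rw [corrMap, map_zero]

lemma corrMap_add' {X Y : 𝒱.Obj} (z : (X.prod Y).Cycles) (a b : W.H X) :
    corrMap W z (a + b) = corrMap W z a + corrMap W z b := by
  rw [corrMap, map_add]
  rfl

/-- The operator of `t` only sees the component of degree two. -/
lemma corrMap_proj {X : 𝒱.Obj} {t : (X.prod X).Cycles}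
    (h0 : ∀ j ≠ 2, ∀ a, InDeg W X j a → corrMap W t a = 0) (a : W.H X) :
    corrMap W t (proj (W.isInternal X) 2 a) = corrMap W t a := by
  refine gr_induction (W.isInternal X) (p := fun a => corrMap W t (proj (W.isInternal X) 2 a) =
    corrMap W t a) ?_ ?_ a
  · intro j a ha
    by_cases hj : j = 2
    · subst hj
      rw [proj_same _ ha]
    · rw [proj_ne _ ha hj, corrMap_zero', h0 j hj a ha]
  · intro a b ha hb
    rw [map_add, corrMap_add', corrMap_add', ha, hb]

/-- **Detection of idempotents.** -/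
theorem detected_of_spanned {P : Polarized 𝒱} (h : SpannedByDivisors W P)
    {t e : (P.X.prod P.X).Cycles} (ht : IsSymmetricInDegreeTwo W P.X P.D t)
    (he : IsIdempotentIn W P.X t e) : DetectedSomewhere W P t e := by
  obtain ⟨a, ha⟩ := he.ne
  -- the component of degree two
  have hp : corrMap W e (proj (W.isInternal P.X) 2 a) = corrMap W e a := by
    obtain ⟨N, c, hc⟩ := he.poly
    rw [hc, hc]
    apply Finset.sum_congr rfl
    intro i _
    rw [Function.iterate_succ_apply, Function.iterate_succ_apply, corrMap_proj ht.zero]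
  have hx : InDeg W P.X 2 (proj (W.isInternal P.X) 2 a) := proj_mem _ _ _
  rw [← hp] at ha
  -- a class which becomes algebraic and is not killed
  obtain ⟨w, hw, hew⟩ : ∃ w, BecomesDivisor W P w ∧ corrMap W e w ≠ 0 := by
    by_contra hnot
    push Not at hnot
    apply ha
    have h1 := h _ hx (LinearMap.ker (W.corr (W.cl _ e))) ?_
    · exact h1
    · rintro _ ⟨g, w, hg, hw, rfl⟩
      have h2 := hg e he.isCyc w
      rw [hnot w hw] at h2
      rw [LinearMap.mem_ker]
      refine h2.symm.trans ?_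
      exact map_zero g
  obtain ⟨k₀, _, 𝒱₀, ops₀, W₀, P₀, S, hP₀, hS, ⟨h0, h1, hD⟩, w₀, hw₀, hww⟩ := hw
  obtain ⟨t₀, ht₀, htt⟩ := hS t ht.isCyc
  obtain ⟨e₀, he₀, hee⟩ := hS e he.isCyc
  refine ⟨k₀, _, 𝒱₀, ops₀, W₀, P₀, S, hP₀, t₀, e₀, ht₀, htt, hee, Or.inl ⟨h0, h1, ?_⟩⟩
  have hne : corrMap W₀ e₀ (classOf W₀ P₀.X w₀) ≠ 0 := by
    rw [← hww, ← hee w]
    intro h2
    apply hew
    have h3 : S.s (corrMap W e w) = S.s 0 := by
      rw [map_zero]
      exact h2
    exact S.s.injective h3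
  have hdim := dim_prod (𝒱 := 𝒱₀) P₀.X P₀.X
  set y := ops₀.push (snd P₀.X P₀.X) (ops₀.mul e₀ (ops₀.pull (fst P₀.X P₀.X) w₀)) with hy
  have hcl : W₀.cl P₀.X y = corrMap W₀ e₀ (classOf W₀ P₀.X w₀) := by
    rw [hy, corrMap, classOf, classOf, corr_apply, W₀.cl_push, W₀.cl_mul, W₀.cl_pull]
  have hyc : P₀.X.IsCyc 1 y := by
    apply ops₀.push_mem _ (ops₀.mul_mem he₀ (ops₀.pull_mem _ hw₀))
    omega
  by_contra hnot
  apply hne
  rw [← hcl]
  apply hD y hyc
  intro c hc
  by_contra hc0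
  apply hnot
  refine ⟨w₀, c, hw₀, hc, ?_⟩
  rw [PairsNontrivially, trOf, ← hcl, classOf, ← W₀.cl_mul]
  have hd1 : 1 ≤ P₀.X.dim := by
    by_contra hd
    have h2 := W₀.cl_mem hyc
    rw [W₀.gr_eq_bot _ _ (by omega)] at h2
    apply hne
    rw [← hcl]
    exact (Submodule.mem_bot _).1 h2
  have hm := ops₀.mul_mem hyc hc
  rw [show 1 + (P₀.X.dim - 1) = P₀.X.dim by omega] at hm
  rw [W₀.tr_cl hm]
  exact_mod_cast hc0

end Pool.Agent.H846.HKn
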