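import Pool.Agent.H846.HKn.IrrDefs
import Pool.Agent.H846.HKn.Span
import Pool.Agent.H846.Bdeg.One

/-!
# Transcendental classes reached by divisors at places
-/

open CategoryTheory AlgebraicGeometry Finset

universe u v

namespace Pool.Agent.H846.HKn

open Pool.Agent.H914 Pool.Agent.H914.VarClass Pool.Agent.H914.VarClass.Obj
  Pool.Agent.H914.WeilCohomology Pool.Agent.H281R3.HT Pool.Agent.W552 Pool.Agent.W539.Ker
  Pool.Agent.R911.Iso Pool.Agent.H447 Pool.Agent.H846.Det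

variable {k : Type u} [Field k] {𝒱 : VarClass k} {ops : CycleOps 𝒱}
  {W : WeilCohomology.{u, v} ops} {P : Polarized 𝒱}

/-- **The decomposition of `H²(X)`.** -/
lemma exists_decomp_two (hD : P.X.IsCyc 1 P.D) (hn : 2 ≤ P.X.dim) (hH : Hdt.HomHodgeUpTo W P 1)
    {x : W.H P.X} (hx : x ∈ W.gr P.X 2) :
    ∃ a τ, a ∈ Submodule.span W.K (algClasses W P.X 1) ∧ InTranscendental W P τ ∧ x = a + τ := by
  set N := Submodule.span W.K (algClasses W P.X 1) with hN
  let φ : N →ₗ[W.K] Module.Dual W.K N :=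
    (LinearMap.lcomp W.K W.K N.subtype).comp ((Bdeg.frm W P.X P.D).comp N.subtype)
  have hφ : ∀ a b : N, φ a b = Bdeg.frm W P.X P.D a b := fun _ _ => rfl
  have hinj : Function.Injective φ := by
    rw [injective_iff_map_eq_zero]
    intro a ha
    apply Subtype.ext
    refine Bdeg.frm_nondeg hD hn hH a.2 ?_
    intro b hb
    have h1 := hφ a ⟨b, Submodule.subset_span hb⟩
    rw [ha] at h1
    exact h1.symm
  have hsurj : Function.Surjective φ :=
    (LinearMap.injective_iff_surjective_of_finrank_eq_finrank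
      (Subspace.dual_finrank_eq (K := W.K) (V := N)).symm).1 hinj
  obtain ⟨a, ha⟩ := hsurj ((Bdeg.frm W P.X P.D x).comp N.subtype)
  have hax : ∀ b ∈ algClasses W P.X 1, Bdeg.frm W P.X P.D (x - a) b = 0 := by
    intro b hb
    have h1 := congrArg (fun F => F ⟨b, Submodule.subset_span hb⟩) ha
    beta_reduce at h1
    rw [hφ] at h1
    rw [map_sub, LinearMap.sub_apply, h1]
    exact sub_self _
  have hN2 : N ≤ W.gr P.X 2 := by
    rw [hN, Submodule.span_le]
    intro b hb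
    exact alg_gr hb
  refine ⟨a, x - a, a.2, ⟨Submodule.sub_mem _ hx (hN2 a.2), ?_⟩, (add_sub_cancel _ _).symm⟩
  rintro _ ⟨w, hw, rfl⟩
  have h1 := hax _ ⟨w, hw, rfl⟩
  rw [Bdeg.frm_apply] at h1
  change W.tr P.X ((x - a) * W.cl P.X (divPow ops P.D (P.X.dim - 2) w)) = 0
  rw [cl_divPow, LinearMap.pow_mulLeft, LinearMap.mulLeft_apply,
    ← W.even_comm (W.cl_mem hw) (W.cl P.X P.D ^ (P.X.dim - 2)), ← mul_assoc]
  exact h1

/-- The known theorems on divisors. -/
lemma divisorTheorems {k₀ : Type u} [Field k₀] {𝒱₀ : VarClass k₀} {ops₀ : CycleOps 𝒱₀}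
    {W₀ : WeilCohomology.{u, v} ops₀} {P₀ : Polarized 𝒱₀} (hP : IsLefschetz W₀ P₀)
    (hn : 2 ≤ P₀.X.dim) (h : Hdt.HomHodgeUpTo W₀ P₀ 1) : DivisorTheorems W₀ P₀ := by
  have h1 := Hdt.hodgeUpTo_of_hom h
  obtain ⟨f, G⟩ := exists_gd hP.isCyc hP.hard hP.std
  refine ⟨h1 0 (by omega) (by omega), h1 1 le_rfl (by omega), fun w hw hnum => ?_⟩
  exact Hdt.numHomIn_of_hom G h (j := 1) (by omega) (Or.inl le_rfl) w hw hnum

/-- **Transcendental classes reached by divisors at places.** -/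
theorem spanned_of_jumps (hP : IsLefschetz W P) (hn : 2 ≤ P.X.dim)
    (h : EnoughJumps W P) : SpannedByDivisors W P := by
  have hindex : Hdt.HomHodgeUpTo W P 1 := fun n hn _ z hz hz0 => h.index n hn z hz hz0
  set A : Submodule W.K (W.H P.X) := Submodule.span W.K {y | ∃ g w, IsSymmetry W P g ∧
    BecomesDivisor W P w ∧ isoMap g w = y} with hA
  have hmem : ∀ {w}, BecomesDivisor W P w → w ∈ A := fun {w} hw =>
    Submodule.subset_span ⟨RingEquiv.refl _, w, fun _ _ _ => rfl, hw, rfl⟩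
  have hstab : ∀ g, IsDivisorSymmetry W P g → ∀ y ∈ A, g y ∈ A := by
    rintro g ⟨⟨σ, hσ⟩, hfix, hg⟩ y hy
    refine Submodule.span_induction (p := fun x _ => g x ∈ A) ?_ ?_ ?_ ?_ hy
    · rintro _ ⟨g', w, hg', hw, rfl⟩
      refine Submodule.subset_span ⟨g'.trans g, w, ?_, hw, rfl⟩
      intro v hv a
      change g (g' (corrMap W v a)) = corrMap W v (g (g' a))
      have h1 := hg' v hv a
      have h2 := hg v hv (g' a)
      change g' (corrMap W v a) = corrMap W v (g' a) at h1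
      change g (corrMap W v (g' a)) = corrMap W v (g (g' a)) at h2
      rw [h1, h2]
    · rw [map_zero]
      exact Submodule.zero_mem _
    · intro a b _ _ ha hb
      rw [map_add]
      exact Submodule.add_mem _ ha hb
    · intro c a _ ha
      rw [hσ.map.smul]
      exact Submodule.smul_mem _ _ ha
  have hNS : ∀ a ∈ Submodule.span W.K (algClasses W P.X 1), a ∈ A := by
    intro a ha
    refine Submodule.span_le.2 ?_ ha
    rintro _ ⟨w, hw, rfl⟩
    refine hmem ⟨k, _, 𝒱, ops, W, P, ⟨RingEquiv.refl _, RingEquiv.refl _, ?_⟩, hP, ?_,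
      divisorTheorems hP hn hindex, w, hw, rfl⟩
    · exact ⟨rfl, hP.isCyc, ⟨fun _ _ => rfl, fun _ _ h => h, fun _ => rfl⟩, rfl⟩
    · exact fun v hv => ⟨v, hv, fun _ => rfl⟩
  let U : Submodule W.K (W.H P.X) :=
    { carrier := {y | InTranscendental W P y ∧ y ∈ A}
      zero_mem' := ⟨⟨Submodule.zero_mem _, fun w _ => by
        rw [zero_mul]
        exact map_zero (W.tr P.X)⟩, Submodule.zero_mem _⟩
      add_mem' := by
        rintro a b ⟨⟨ha1, ha2⟩, ha3⟩ ⟨⟨hb1, hb2⟩, hb3⟩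
        refine ⟨⟨Submodule.add_mem _ ha1 hb1, fun w hw => ?_⟩, Submodule.add_mem _ ha3 hb3⟩
        have e1 : W.tr P.X (a * w) = 0 := ha2 w hw
        have e2 : W.tr P.X (b * w) = 0 := hb2 w hw
        change W.tr P.X ((a + b) * w) = 0
        rw [add_mul, map_add, e1, e2, add_zero]
      smul_mem' := by
        rintro c a ⟨⟨ha1, ha2⟩, ha3⟩
        refine ⟨⟨Submodule.smul_mem _ _ ha1, fun w hw => ?_⟩, Submodule.smul_mem _ _ ha3⟩
        have e1 : W.tr P.X (a * w) = 0 := ha2 w hw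
        change W.tr P.X ((c • a) * w) = 0
        rw [smul_mul_assoc, map_smul, e1, smul_zero] }
  have hU : ∀ g, IsDivisorSymmetry W P g → ∀ y ∈ U, isoMap g y ∈ U := by
    rintro g hg y ⟨⟨hy1, hy2⟩, hy3⟩
    have hg' := hg
    obtain ⟨⟨σ, hσ⟩, hfix, _⟩ := hg
    refine ⟨⟨hσ.map.mem _ _ hy1, ?_⟩, hstab g hg' y hy3⟩
    rintro _ ⟨w, hw, rfl⟩
    have e1 : W.tr P.X (y * W.cl P.X (divPow ops P.D (P.X.dim - 2) w)) = 0 := hy2 _ ⟨w, hw, rfl⟩
    have e2 := hσ.map.tr_eq (y * W.cl P.X (divPow ops P.D (P.X.dim - 2) w))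
    have e3 : g (W.cl P.X (divPow ops P.D (P.X.dim - 2) w)) =
        W.cl P.X (divPow ops P.D (P.X.dim - 2) w) := by
      rw [cl_divPow, LinearMap.pow_mulLeft, LinearMap.mulLeft_apply, map_mul, map_pow]
      have e4 : g (W.cl P.X P.D) = W.cl P.X P.D := hσ.cl_eq
      have e5 : g (W.cl P.X w) = W.cl P.X w := hfix w hw
      rw [e4, e5]
    rw [e1, map_zero, map_mul, e3] at e2
    exact e2
  have hT : ∀ y, InTranscendental W P y → y ∈ A := by
    rcases h.jumps U (fun y hy => hy.1) hU with e | ⟨x, hx, hxU⟩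
    · exact fun y hy => (e y hy).2
    · exfalso
      apply hxU
      obtain ⟨k₀, _, 𝒱₀, ops₀, W₀, P₀, S, hP₀, hI₀, hS, w₀, hw₀, hxw⟩ := hx
      have hdim := S.comp.dim_eq
      have hxA : x ∈ A := hmem ⟨k₀, _, 𝒱₀, ops₀, W₀, P₀, S, hP₀, hS,
        divisorTheorems hP₀ (by omega) (fun n hn _ z hz hz0 => hI₀ n hn z hz hz0), w₀, hw₀, hxw⟩
      have hxm : x ∈ W.gr P.X 2 := by
        have e1 := W₀.cl_mem hw₀
        have e2 := Deg2.symm_mem S.comp e1
        have e3 : S.s.symm (W₀.cl P₀.X w₀) = x := by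
          apply S.s.injective
          rw [S.s.apply_symm_apply]
          exact hxw.symm
        rw [e3] at e2
        exact e2
      obtain ⟨a, τ, ha, hτ, rfl⟩ := exists_decomp_two hP.isCyc hn hindex hxm
      intro V hV
      have haV : a ∈ V := by
        refine Submodule.span_le.2 ?_ ha
        rintro _ ⟨w, hw, rfl⟩
        exact hV _ (Or.inl ⟨w, hw, rfl⟩)
      have hτA : τ ∈ A := by
        have := Submodule.sub_mem _ hxA (hNS a ha)
        rwa [add_sub_cancel_left] at this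
      exact Submodule.add_mem _ haV (hV τ (Or.inr ⟨hτ, hτA⟩))
  intro y hy V hV
  obtain ⟨a', τ', ha', hτ', rfl⟩ := exists_decomp_two hP.isCyc hn hindex hy
  have hAV : A ≤ V := by
    rw [hA, Submodule.span_le]
    intro y hy
    exact hV y hy
  exact Submodule.add_mem _ (hAV (hNS a' ha')) (hAV (hT τ' hτ'))

end Pool.Agent.H846.HKn
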