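import Pool.Agent.H846.HKn.Defs

/-!
# Transcendental classes reached by divisors at places: definitions
-/

open CategoryTheory AlgebraicGeometry

universe u v

namespace Pool.Agent.H846.HKn

open Pool.Agent.H914 Pool.Agent.H914.VarClass Pool.Agent.H914.VarClass.Obj
  Pool.Agent.H281R3.HT Pool.Agent.R911.Iso Pool.Agent.W539.Ker Pool.Agent.H846.Det

/-- For each subspace `U` of `T`, different from `T`, which is stable under the maps `m g`, `g` in `G`,
some element of `J` is not a combination of elements of `N` and of `U`. If `T` is irreducible, this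
only has to be checked for `U = 0`: some element of `J` is not in the span of `N`. -/
def EnoughOutside (K : Type*) {A I : Type*} [Field K] [AddCommGroup A] [Module K A]
    (T J N : A → Prop) (G : I → Prop) (m : I → A → A) : Prop :=
  ∀ U : Submodule K A, (∀ y ∈ U, T y) → (∀ g, G g → ∀ y ∈ U, m g y ∈ U) →
    (∀ y, T y → y ∈ U) ∨ ∃ x, J x ∧ ¬ InSpan K (fun z => N z ∨ z ∈ U) x

/-- The element `y` is orthogonal to the elements with the property `V` for the form `tr(x y)`. -/
def OrthTo {K A : Type*} [Zero K] [Mul A] (tr : A → K) (V : A → Prop) (y : A) : Prop :=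
  ∀ w, V w → tr (y * w) = 0

variable {k : Type u} [Field k] {𝒱 : VarClass k} {ops : CycleOps 𝒱}

/-- The class `x` is the class of `D ^ m w` for a divisor `w`. -/
def IsDivisorPower (W : WeilCohomology.{u, v} ops) (P : Polarized 𝒱) (m : ℕ) (x : W.H P.X) :
    Prop :=
  ∃ w, P.X.IsCyc 1 w ∧ classOf W P.X (divPow ops P.D m w) = x

/-- The class `y` is in the transcendental part of `H²(X)`: `tr(y w D ^ (dim X - 2)) = 0` for all
divisors `w`. -/
def InTranscendental (W : WeilCohomology.{u, v} ops) (P : Polarized 𝒱) (y : W.H P.X) : Prop :=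
  InDeg W P.X 2 y ∧ OrthTo (trOf W P.X) (IsDivisorPower W P (P.X.dim - 2)) y

/-- The map `g` is a symmetry: an automorphism of the ring `H(X)` (semilinear, preserving the
degrees, the trace and the classes of divisors) which commutes with the cycles of codimension
`dim X` on `X × X` (for instance given by an element of a small open subgroup of the geometric
monodromy group). -/
def IsDivisorSymmetry (W : WeilCohomology.{u, v} ops) (P : Polarized 𝒱)
    (g : CohIso W W P.X P.X) : Prop :=
  (∃ σ, IsComparison W W P P σ g) ∧
  (∀ w, P.X.IsCyc 1 w → isoMap g (classOf W P.X w) = classOf W P.X w) ∧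
  ∀ v, (P.X.prod P.X).IsCyc P.X.dim v → SpecializesTo g g v v

/-- The Hodge index theorem, with the intersection form on the classes of divisors. -/
def IndexTheorem (W : WeilCohomology.{u, v} ops) (P : Polarized 𝒱) : Prop :=
  ∀ n ≤ 1, ∀ z, Primitive W P.X P.D n z → classOf W P.X z ≠ 0 → 0 < pairing ops P.X P.D n z z

/-- The class `x` corresponds to the class of a divisor on some variety `X₀` with the same cohomology
ring (a place). Moreover all cycles of codimension `dim X` on `X × X` specialise to cycles on
`X₀ × X₀`, the Hodge index theorem holds for `X₀`, and `X₀` satisfies the Lefschetz standard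
conjecture. -/
def IsDivisorSomewhere (W : WeilCohomology.{u, v} ops) (P : Polarized 𝒱) (x : W.H P.X) : Prop :=
  ∃ (k₀ : Type u) (_ : Field k₀) (𝒱₀ : VarClass k₀) (ops₀ : CycleOps 𝒱₀)
    (W₀ : WeilCohomology.{u, v} ops₀) (P₀ : Polarized 𝒱₀) (S : Place W W₀ P P₀),
    IsLefschetz W₀ P₀ ∧ IndexTheorem W₀ P₀ ∧
    (∀ v, (P.X.prod P.X).IsCyc P.X.dim v →
      ∃ v₀, (P₀.X.prod P₀.X).IsCyc P₀.X.dim v₀ ∧ SpecializesTo S.s S.s v v₀) ∧
    ∃ w, P₀.X.IsCyc 1 w ∧ isoMap S.s x = classOf W₀ P₀.X w

/-- The Hodge index theorem holds for `X`, and for each subspace `U` of the transcendental part `T`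
of `H²(X)`, different from `T`, which is stable under the symmetries, some `X₀` has a divisor outside
`NS(X) + U`. If `T` is irreducible under the symmetries, this means that some `X₀` has more divisors
than `X`. -/
structure EnoughJumps (W : WeilCohomology.{u, v} ops) (P : Polarized 𝒱) : Prop where
  index : IndexTheorem W P
  jumps : EnoughOutside W.K (InTranscendental W P) (IsDivisorSomewhere W P)
    (IsDivisorPower W P 0) (IsDivisorSymmetry W P) isoMap

end Pool.Agent.H846.HKn
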