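import Mathlib

/-!
# A trace formula for quadratic spaces
-/

open Finset

namespace Pool.Agent.H846.HKn

variable {K : Type*} [Field K] [CharZero K] {V : Type*} [AddCommGroup V] [Module K V]
  [Module.Finite K V]

/-- The operator `v ↦ ∑ i, (q (x i) v • y i + q (y i) v • x i)`, twice the operator of the
symmetric tensor `∑ i, x i y i`. -/
noncomputable def symOp (q : V →ₗ[K] V →ₗ[K] K) {n : ℕ} (x y : Fin n → V) : V →ₗ[K] V :=
  ∑ i, ((q (x i)).smulRight (y i) + (q (y i)).smulRight (x i))

omit [CharZero K] [Module.Finite K V] in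
lemma symOp_apply (q : V →ₗ[K] V →ₗ[K] K) {n : ℕ} (x y : Fin n → V) (v : V) :
    symOp q x y v = ∑ i, (q (x i) v • y i + q (y i) v • x i) := by
  rw [symOp, LinearMap.sum_apply]
  rfl

omit [CharZero K] in
lemma trace_comp_smulRight (q : V →ₗ[K] V →ₗ[K] K) (a b c d : V) :
    LinearMap.trace K V ((q a).smulRight b * (q c).smulRight d) = q a d * q c b := by
  have h1 : (q a).smulRight b * (q c).smulRight d = (q c).smulRight (q a d • b) := by
    apply LinearMap.ext
    intro v
    rw [Module.End.mul_apply, LinearMap.smulRight_apply, LinearMap.smulRight_apply,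
      LinearMap.smulRight_apply, map_smul, smul_smul, smul_eq_mul]
  rw [h1, LinearMap.trace_smulRight, map_smul, smul_eq_mul]

omit [CharZero K] in
lemma trace_symOp (q : V →ₗ[K] V →ₗ[K] K) (hs : ∀ x y, q x y = q y x) {n : ℕ}
    (x y : Fin n → V) : LinearMap.trace K V (symOp q x y) = 2 * ∑ i, q (x i) (y i) := by
  rw [symOp, map_sum, Finset.mul_sum]
  apply Finset.sum_congr rfl
  intro i _
  rw [map_add, LinearMap.trace_smulRight, LinearMap.trace_smulRight, hs (y i) (x i)]
  ring

omit [CharZero K] in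
lemma trace_symOp_sq (q : V →ₗ[K] V →ₗ[K] K) (hs : ∀ x y, q x y = q y x) {n : ℕ}
    (x y : Fin n → V) : LinearMap.trace K V (symOp q x y * symOp q x y) =
      2 * ∑ i, ∑ j, (q (x i) (x j) * q (y i) (y j) + q (x i) (y j) * q (y i) (x j)) := by
  rw [symOp, Finset.sum_mul, map_sum, Finset.mul_sum]
  apply Finset.sum_congr rfl
  intro i _
  rw [Finset.mul_sum, map_sum, Finset.mul_sum]
  apply Finset.sum_congr rfl
  intro j _
  rw [add_mul, mul_add, mul_add, map_add, map_add, map_add, trace_comp_smulRight,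
    trace_comp_smulRight, trace_comp_smulRight, trace_comp_smulRight, hs (x j) (y i),
    hs (y j) (y i), hs (x j) (x i), hs (y j) (x i)]
  ring

/-- **The trace formula.** -/
theorem trace_formula (q : V →ₗ[K] V →ₗ[K] K) (hs : ∀ x y, q x y = q y x) {n : ℕ}
    (x y : Fin n → V) (T : V →ₗ[K] V) (d μ : K) (m : ℕ)
    (hT : d • T = symOp q x y - μ • (1 : Module.End K V))
    (ht : ∑ i, q (x i) (y i) = -(m + 1) * μ) :
    2 * ((∑ i, q (x i) (y i)) ^ 2 + (∑ i, ∑ j, (q (x i) (x j) * q (y i) (y j) +
      q (x i) (y j) * q (y i) (x j))) + 2 * m * ((∑ i, q (x i) (y i)) * μ + μ ^ 2) +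
        m * (m - 1) * μ ^ 2) =
      d ^ 2 * (LinearMap.trace K V (T * T) -
        (LinearMap.trace K V T) ^ 2 / (Module.finrank K V + 2 * m + 2)) := by
  set t := ∑ i, q (x i) (y i) with htd
  have h1 : d * LinearMap.trace K V T = 2 * t - μ * Module.finrank K V := by
    have h2 := congrArg (LinearMap.trace K V) hT
    rw [map_smul, map_sub, map_smul, trace_symOp q hs, smul_eq_mul, smul_eq_mul,
      LinearMap.trace_one] at h2
    exact h2
  have h2 : d ^ 2 * LinearMap.trace K V (T * T) =
      LinearMap.trace K V (symOp q x y * symOp q x y) - 4 * μ * t +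
        μ ^ 2 * Module.finrank K V := by
    have h3 : (d • T) * (d • T) = symOp q x y * symOp q x y - (2 * μ) • symOp q x y +
        (μ ^ 2) • (1 : Module.End K V) := by
      rw [hT, sub_mul, mul_sub, mul_sub, smul_mul_smul_comm, one_mul, smul_mul_assoc, one_mul,
        mul_smul_comm, mul_one, two_mul, add_smul, pow_two]
      abel
    have h4 := congrArg (LinearMap.trace K V) h3
    rw [smul_mul_smul_comm, map_smul, map_add, map_sub, map_smul, map_smul, trace_symOp q hs,
      LinearMap.trace_one, smul_eq_mul, smul_eq_mul, smul_eq_mul] at h4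
    rw [pow_two, h4]
    ring
  have h4 := trace_symOp_sq q hs x y
  have hb : (Module.finrank K V : K) + 2 * m + 2 ≠ 0 := by
    have : ((Module.finrank K V + 2 * m + 2 : ℕ) : K) ≠ 0 := Nat.cast_ne_zero.2 (by omega)
    push_cast at this
    exact this
  have h5 : d ^ 2 * (LinearMap.trace K V T) ^ 2 =
      (μ * (Module.finrank K V + 2 * m + 2)) ^ 2 := by
    rw [← mul_pow, h1, ht]
    ring
  have h6 : d ^ 2 * ((LinearMap.trace K V T) ^ 2 / (Module.finrank K V + 2 * m + 2)) =
      μ ^ 2 * (Module.finrank K V + 2 * m + 2) := by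
    rw [mul_div_assoc', h5, div_eq_iff hb]
    ring
  rw [mul_sub (d ^ 2), h6, h2, h4, ht]
  ring

end Pool.Agent.H846.HKn
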