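import Pool.Agent.H846.HKn.Pos

/-!
# Traces of squares and detection by divisors
-/

open CategoryTheory AlgebraicGeometry Finset

universe u v

namespace Pool.Agent.H846.HKn

open Pool.Agent.H914 Pool.Agent.H914.VarClass Pool.Agent.H914.VarClass.Obj
  Pool.Agent.H914.WeilCohomology Pool.Agent.H281R3.HT Pool.Agent.W552 Pool.Agent.W539.Ker
  Pool.Agent.R911.Iso Pool.Agent.H447 Pool.Agent.H846.Det

variable {k : Type u} [Field k] {𝒱 : VarClass k} {ops : CycleOps 𝒱}
  {W : WeilCohomology.{u, v} ops}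

/-- The functional `h ↦ h(0)`. -/
lemma posFun_zero : PosFun (Polynomial.lcoeff ℚ 0) := by
  constructor
  · intro h
    rw [Polynomial.lcoeff_apply, Polynomial.mul_coeff_zero]
    exact mul_self_nonneg _
  · intro h
    rw [Polynomial.lcoeff_apply, Polynomial.mul_coeff_zero, Polynomial.coeff_X_zero, zero_mul]

/-- Operators of degree zero. -/
lemma hm_zero {X : 𝒱.Obj} {B : Module.End W.K (W.H X)} (hdeg : ∀ x, B x ∈ W.gr X 2)
    (hz : ∀ j ≠ 2, ∀ x ∈ W.gr X j, B x = 0) : Hm W 0 B := by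
  apply gr_ext (W.isInternal X)
  intro i x hx
  rw [LinearMap.comp_apply, LinearMap.add_apply, LinearMap.comp_apply, LinearMap.smul_apply]
  by_cases hi : i = 2
  · subst hi
    rw [Fr.wt_gr (hdeg x), Fr.wt_gr hx, map_smul]
    simp
  · rw [hz i hi x hx, Fr.wt_gr hx, map_smul, hz i hi x hx]
    simp

/-- A polynomial without constant term in an operator. -/
lemma isPolynomialIn_ev {K : Type*} [Field K] [CharZero K] {V : Type*} [AddCommGroup V]
    [Module K V] (B : Module.End K V) {h : Polynomial ℚ} (h0 : h.coeff 0 = 0) {p r : V → V}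
    (hp : ∀ x, p x = B x) (hr : ∀ x, r x = Det.ev B h x) : IsPolynomialIn (K := K) p r := by
  refine ⟨h.natDegree, fun i => h.coeff (i + 1), ?_⟩
  intro a
  have h1 : p = B := funext hp
  have h2 : ∀ n, p^[n] a = (B ^ n) a := by
    intro n
    rw [h1, Module.End.pow_apply]
  have h3 : Det.ev B h = ∑ i ∈ Finset.range (h.natDegree + 1), ((h.coeff i : ℚ) : K) • B ^ i := by
    conv_lhs => rw [h.as_sum_range]
    rw [map_sum]
    apply Finset.sum_congr rfl
    intro i _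
    rw [← mul_one (h.coeff i), ← smul_eq_mul, ← Polynomial.smul_monomial, ev_smul,
      ← Polynomial.X_pow_eq_monomial, map_pow, Det.ev_X, smul_eq_mul, mul_one]
  rw [hr, h3, Finset.sum_range_succ', h0, Rat.cast_zero, zero_smul, add_zero,
    LinearMap.sum_apply, Finset.sum_range]
  apply Finset.sum_congr rfl
  intro i _
  rw [LinearMap.smul_apply, h2]

/-- **The traces of the squares of the self-adjoint operators on the cohomology of degree two are
nonnegative.** -/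
theorem trace_sq_nonneg {P : Polarized 𝒱} {f : Module.End W.K (W.H P.X)} (G : Gd W P.X P.D f)
    (h1 : (1 : W.H P.X) ≠ 0) (hdim : 1 ≤ P.X.dim)
    (hdet : ∀ t e, IsSymmetricInDegreeTwo W P.X P.D t → IsIdempotentIn W P.X t e →
      DetectedSomewhere W P t e)
    {B : Module.End W.K (W.H P.X)} (hB : AOp W P.X P.X B) (hadj : Adj W P.D f P.D f B B)
    (hdeg : ∀ x, B x ∈ W.gr P.X 2) (hz : ∀ j ≠ 2, ∀ x ∈ W.gr P.X j, B x = 0)
    (hsym : ∀ a ∈ W.gr P.X 2, ∀ b ∈ W.gr P.X 2,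
      W.tr P.X (W.cl P.X P.D ^ (P.X.dim - 2) * (B a * b)) =
        W.tr P.X (W.cl P.X P.D ^ (P.X.dim - 2) * (a * B b))) :
    ∃ q : ℚ, 0 ≤ q ∧ LinearMap.trace W.K (W.H P.X) (B * B) = q := by
  have hBB : AOp W P.X P.X (B * B) := hB.mul hB
  have hz' : ∀ j ≠ 2, ∀ x ∈ W.gr P.X j, (B * B) x = 0 := by
    intro j hj x hx
    rw [Module.End.mul_apply, hz j hj x hx, map_zero]
  obtain ⟨τ, hτ, hτe⟩ := exists_cR (W := W) ⟨B, rop_of_aop hB (hm_zero hdeg hz)⟩
  have hτe' : W.corr (W.cl _ τ) = B := congrArg Subtype.val hτe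
  have hτx : ∀ x, corrMap W τ x = B x := fun x => congrArg (fun T => T x) hτe'
  have hsymt : IsSymmetricInDegreeTwo W P.X P.D τ := by
    refine ⟨hτ, ?_, ?_, ?_⟩
    · intro j hj a ha
      rw [hτx, hz j hj a ha]
    · intro a _
      rw [hτx]
      exact hdeg a
    · intro a b ha hb
      rw [hτx, hτx]
      have h2 : ∀ c : W.H P.X, c * classOf W P.X (divPow ops P.D (P.X.dim - 2)
          P.X.V.fundCycle) = W.cl P.X P.D ^ (P.X.dim - 2) * c := by
        intro c
        have h3 : classOf W P.X (divPow ops P.D (P.X.dim - 2) P.X.V.fundCycle) =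
            W.cl P.X P.D ^ (P.X.dim - 2) := by
          change W.cl P.X _ = _
          rw [cl_divPow, W.cl_fund, LinearMap.pow_mulLeft, LinearMap.mulLeft_apply, mul_one]
        rw [h3]
        exact (even_comm (pow_mem_gr G.fr.hD _) _).symm
      rw [h2, h2]
      exact hsym a ha b hb
  refine (trace_nonneg (a := B * B) (fun n => G.trace_rat (hBB.pow n)) ?_).2
  intro g hid hne
  by_cases hg0 : g.coeff 0 = 0
  swap
  · refine ⟨Polynomial.lcoeff ℚ 0, posFun_zero, ?_, hg0⟩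
    intro h hh
    have h2 := ev_ker h (hz' 0 (by norm_num) 1 (W.one_mem P.X))
    rw [hh, LinearMap.zero_apply] at h2
    rcases smul_eq_zero.1 h2.symm with h3 | h3
    · rw [Polynomial.lcoeff_apply]
      exact_mod_cast h3
    · exact absurd h3 h1
  have hm : Hm W 0 (Det.ev (B * B) g) := by
    have h2 : ∀ j ≠ 2, ∀ x ∈ W.gr P.X j, Det.ev (B * B) g x = 0 := by
      intro j hj x hx
      rw [ev_ker g (hz' j hj x hx), hg0, Rat.cast_zero, zero_smul]
    apply hm_zero ?_ h2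
    intro x
    refine gr_induction (W.isInternal P.X) (p := fun x => Det.ev (B * B) g x ∈ W.gr P.X 2)
      ?_ ?_ x
    swap
    · intro x x' hx hx'
      rw [map_add]
      exact add_mem hx hx'
    intro j x hx
    by_cases hj : j = 2
    · subst hj
      exact ev_mem (B := B * B) (fun y _ => hdeg (B y)) g hx
    · rw [h2 j hj x hx]
      exact zero_mem _
  have hevR : Det.ev (B * B) g ∈ AR W P.X := rop_of_aop (aop_ev hBB g) hm
  obtain ⟨ε, hε, hεe⟩ := exists_cR (W := W) ⟨Det.ev (B * B) g, hevR⟩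
  have hεe' : W.corr (W.cl _ ε) = Det.ev (B * B) g := congrArg Subtype.val hεe
  have h5 : ∀ x, corrMap W ε x = Det.ev (B * B) g x := fun x => congrArg (fun T => T x) hεe'
  have hexp : Det.ev (B * B) g = Det.ev B (g.comp (Polynomial.X ^ 2)) := by
    rw [← Det.ev_ev, map_pow, Det.ev_X, pow_two]
  have hpoly : IsPolynomialIn (K := W.K) (corrMap W τ) (corrMap W ε) := by
    refine isPolynomialIn_ev B (h := g.comp (Polynomial.X ^ 2)) ?_ hτx ?_
    · rw [Polynomial.coeff_zero_eq_eval_zero, Polynomial.eval_comp]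
      simp only [Polynomial.eval_pow, Polynomial.eval_X, ne_eq, OfNat.ofNat_ne_zero,
        not_false_eq_true, zero_pow]
      rw [← Polynomial.coeff_zero_eq_eval_zero, hg0]
    · intro x
      rw [h5, hexp]
  obtain ⟨k₀, _, 𝒱₀, ops₀, W₀, P₀, S, hP₀, τ₀, e₀, hτ₀, hspect, hspec, hcase⟩ :=
    hdet τ ε hsymt ⟨hε, by
      intro x
      rw [h5, h5]
      exact congrArg (fun T => T x) hid, by
      by_contra hc
      push Not at hc
      apply hne
      apply LinearMap.ext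
      intro x
      rw [← h5, hc, LinearMap.zero_apply], hpoly⟩
  obtain ⟨f₀, G₀⟩ := exists_gd hP₀.isCyc hP₀.hard hP₀.std
  set B₀ : Module.End W₀.K (W₀.H P₀.X) := W₀.corr (W₀.cl _ τ₀) with hB₀def
  have hB₀ : AOp W₀ P₀.X P₀.X B₀ := ⟨_, AS.of ⟨τ₀, hτ₀, rfl⟩, rfl⟩
  have hrB : Rel S.s S.s B B₀ := by
    rw [← hτe']
    exact hspect
  have hadj₀ := adj_spec S.comp S.comp G G₀ G G₀ hrB hrB hadj
  have hdeg₀ : ∀ x, B₀ x ∈ W₀.gr P₀.X 2 := by
    intro x
    obtain ⟨x', hx'⟩ := S.s.surjective x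
    rw [← hx', ← hrB x']
    exact S.comp.mem' 2 _ (hdeg x')
  have hra : Rel S.s S.s (B * B) (B₀ * B₀) := hrB.mul hrB
  have hrev : ∀ q, Rel S.s S.s (Det.ev (B * B) q) (Det.ev (B₀ * B₀) q) :=
    fun q => hra.ev S.comp.smul' q
  have hid₀ : Det.ev (B₀ * B₀) g * Det.ev (B₀ * B₀) g = Det.ev (B₀ * B₀) g := by
    have h3 := (hrev g).mul (hrev g)
    rw [hid] at h3
    exact h3.unique (hrev g)
  have hann : ∀ q, Det.ev (B * B) q = 0 → Det.ev (B₀ * B₀) q = 0 := by
    intro q hq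
    refine (hrev q).unique ?_
    rw [hq]
    intro x
    rw [LinearMap.zero_apply, map_zero, LinearMap.zero_apply]
  rcases hcase with ⟨hH0, hH1, w, y, hw, hy, hne₀⟩ | hHS
  swap
  · -- the standard conjecture of Hodge type holds for `X₀ × X₀`
    have haop1 : AOp W₀ P₀.X P₀.X 1 := AOp.one
    obtain ⟨φ, hφ, hφ'⟩ := exists_functional G₀ G₀ G₀ hHS hHS hB₀ hB₀ hadj₀ haop1 haop1
      (fun _ _ => rfl)
    refine ⟨φ, hφ, ?_, ?_⟩
    · intro q hq
      have h3 := hφ' q
      have h4 : Det.ev (B₀ ∘ₗ B₀) q = 0 := hann q hq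
      rw [h4, LinearMap.zero_comp, LinearMap.comp_zero, map_zero] at h3
      exact_mod_cast h3
    · intro h0
      have h3 := hφ' g
      rw [h0, Rat.cast_zero] at h3
      have h4 : LinearMap.trace W₀.K (W₀.H P₀.X) (Det.ev (B₀ * B₀) g) = 0 := h3.symm
      have h6 : Det.ev (B₀ * B₀) g = 0 := by
        have h7 : IsIdempotentElem (Det.ev (B₀ * B₀) g) := hid₀
        exact (LinearMap.IsIdempotentElem.trace_eq_zero_iff h7).1 h4
      apply hne
      apply LinearMap.ext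
      intro x
      apply S.s.injective
      rw [hrev g x, h6, LinearMap.zero_apply, LinearMap.zero_apply, map_zero]
  have hnn : ∀ c ∈ algClasses W₀ P₀.X 1, ∃ q : ℚ, 0 ≤ q ∧ bf W₀ P₀.X P₀.D f₀ c c = q := by
    intro c hc
    refine bf_nonneg_le G₀.fr ?_ hc
    intro n hn _ z hz hz'
    interval_cases n
    · exact hH0 z hz hz'
    · exact hH1 z hz hz'
  have hwc : W₀.cl P₀.X w ∈ algClasses W₀ P₀.X 1 := ⟨w, hw, rfl⟩
  obtain ⟨φ, hφ, hφ'⟩ := divisor_functional G₀ hnn hB₀ hadj₀ hdeg₀ hwc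
  refine ⟨φ, hφ, ?_, ?_⟩
  · intro q hq
    have h3 := hφ' q
    rw [hann q hq, LinearMap.zero_apply, map_zero, LinearMap.zero_apply] at h3
    exact_mod_cast h3
  · intro h0
    have h2 := hφ' g
    rw [h0, Rat.cast_zero] at h2
    have hee : W₀.corr (W₀.cl _ e₀) = Det.ev (B₀ * B₀) g := by
      have h3 : Rel S.s S.s (Det.ev (B * B) g) (W₀.corr (W₀.cl _ e₀)) := by
        rw [← hεe']
        exact hspec
      exact h3.unique (hrev g)
    have hself : Adj W₀ P₀.D f₀ P₀.D f₀ (B₀ * B₀) (B₀ * B₀) := by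
      intro x y
      rw [Module.End.mul_apply, hadj₀, hadj₀, Module.End.mul_apply]
    set v := Det.ev (B₀ * B₀) g (W₀.cl P₀.X w) with hv
    have hvc : v ∈ algClasses W₀ P₀.X 1 :=
      AS.alg ((aop_ev (hB₀.mul hB₀) g).apply (AS.of hwc))
        (ev_mem (B := B₀ * B₀) (fun x _ => hdeg₀ (B₀ x)) g (alg_gr hwc))
    have hvv : bf W₀ P₀.X P₀.D f₀ v v = 0 := by
      have h3 := adj_ev hself g (Det.ev (B₀ * B₀) g (W₀.cl P₀.X w)) (W₀.cl P₀.X w)
      rw [hv, ← h3, ← Module.End.mul_apply, hid₀]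
      exact h2.symm
    apply hne₀
    change W₀.tr P₀.X (W₀.corr (W₀.cl _ e₀) (W₀.cl P₀.X w) * W₀.cl P₀.X y) = 0
    have hyc : W₀.cl P₀.X y ∈ algClasses W₀ P₀.X (P₀.X.dim - 1) := ⟨y, hy, rfl⟩
    have hsy : st W₀ P₀.X P₀.D f₀ (W₀.cl P₀.X y) ∈ algClasses W₀ P₀.X 1 := by
      apply AS.alg (G₀.fr.st_AS (AS.of hyc))
      have h3 := G₀.ls.star_mem (i := 2 * (P₀.X.dim - 1)) (by omega) (alg_gr hyc)
      have h4 : 1 ≤ P₀.X.dim := by rw [S.comp.dim_eq]; exact hdim
      rwa [show 2 * P₀.X.dim - 2 * (P₀.X.dim - 1) = 2 * 1 by omega] at h3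
    have h3 := cs_deg G₀ hnn hvc hsy hvv
    rw [bf_apply, G₀.st_st_apply] at h3
    rw [hee]
    exact h3

end Pool.Agent.H846.HKn
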