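import Mathlib

/-!
# Polarization of Fujiki's relation
-/

open Finset Polynomial

namespace Pool.Agent.H846.HKn

section Coeff

variable {K : Type*} [Field K] [CharZero K]

lemma coeff_one_eq {P Q : K[X]} (h : ∀ s, P.eval s = Q.eval s) : P.coeff 1 = Q.coeff 1 := by
  rw [Polynomial.funext h]

omit [CharZero K] in
lemma coeff_one_pow (P : K[X]) (k : ℕ) :
    (P ^ k).coeff 1 = k * P.coeff 0 ^ (k - 1) * P.coeff 1 := by
  induction k with
  | zero => simp [coeff_one]
  | succ k ih =>
    rw [pow_succ, mul_coeff_one, ih, coeff_zero_eq_eval_zero, eval_pow,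
      ← coeff_zero_eq_eval_zero]
    rcases Nat.eq_zero_or_pos k with rfl | hk
    · simp
    · obtain ⟨j, rfl⟩ : ∃ j, k = j + 1 := ⟨k - 1, by omega⟩
      simp only [Nat.add_sub_cancel]
      push_cast
      ring

omit [CharZero K] in
lemma coeff_zero_pow (P : K[X]) (k : ℕ) : (P ^ k).coeff 0 = P.coeff 0 ^ k := by
  rw [coeff_zero_eq_eval_zero, eval_pow, ← coeff_zero_eq_eval_zero]

end Coeff

section Alg

variable {K : Type*} [Field K] [CharZero K] {A : Type*} [Ring A] [Algebra K A]
  {V : Submodule K A} (hV : ∀ x ∈ V, ∀ a, x * a = a * x) {tr : A →ₗ[K] K}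

include hV

omit [CharZero K] in
/-- The part linear in `y` of `tr ((x + y) ^ m w)`. -/
lemma lin_part {x y : A} (hx : x ∈ V) (w : A) {m : ℕ} (hm : 1 ≤ m) :
    ∃ P : K[X], (∀ s, P.eval s = tr ((x + s • y) ^ m * w)) ∧
      P.coeff 1 = m * tr (x ^ (m - 1) * y * w) := by
  refine ⟨∑ i ∈ range (m + 1), C (tr (x ^ i * y ^ (m - i) * w) * (m.choose i)) * X ^ (m - i),
    ?_, ?_⟩
  · intro s
    have hc : Commute x (s • y) := by
      rw [commute_iff_eq]
      exact hV x hx _
    rw [hc.add_pow, Finset.sum_mul, map_sum, eval_finsetSum]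
    apply Finset.sum_congr rfl
    intro i _
    rw [eval_mul, eval_C, eval_pow, eval_X, _root_.smul_pow, mul_smul_comm,
      smul_mul_assoc, smul_mul_assoc, ← nsmul_eq_mul' (x ^ i * y ^ (m - i)) (m.choose i),
      smul_mul_assoc, map_smul, map_nsmul, nsmul_eq_mul, smul_eq_mul]
    ring
  · rw [finsetSum_coeff, Finset.sum_eq_single (m - 1)]
    · rw [show m - (m - 1) = 1 by omega, pow_one, pow_one, coeff_C_mul, coeff_X_one, mul_one,
        Nat.choose_symm hm, Nat.choose_one_right]
      ring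
    · intro i hi hne
      rw [Finset.mem_range] at hi
      rw [coeff_C_mul, coeff_X_pow, if_neg (by omega), mul_zero]
    · intro h
      exact absurd (Finset.mem_range.2 (by omega)) h

variable {q : A →ₗ[K] A →ₗ[K] K} {c : K} {m : ℕ} (hs : ∀ x ∈ V, ∀ y ∈ V, q x y = q y x)

omit hV [CharZero K] in
/-- The value of the quadratic form on a line. -/
lemma quad_line {x y : A} (hx : x ∈ V) (hy : y ∈ V)
    (hs : ∀ x ∈ V, ∀ y ∈ V, q x y = q y x) (s : K) :
    (C (q x x) + C (2 * q x y) * X + C (q y y) * X ^ 2 : K[X]).eval s =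
      q (x + s • y) (x + s • y) := by
  simp only [eval_add, eval_mul, eval_C, eval_X, eval_pow, map_add, map_smul,
    LinearMap.add_apply, LinearMap.smul_apply, smul_eq_mul]
  rw [hs y hy x hx]
  ring

omit hV [CharZero K] in
lemma quad_coeff_zero (x y : A) :
    (C (q x x) + C (2 * q x y) * X + C (q y y) * X ^ 2 : K[X]).coeff 0 = q x x := by
  rw [coeff_zero_eq_eval_zero]
  simp

omit hV [CharZero K] in
lemma quad_coeff_one (x y : A) :
    (C (q x x) + C (2 * q x y) * X + C (q y y) * X ^ 2 : K[X]).coeff 1 = 2 * q x y := by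
  rw [coeff_add, coeff_add, coeff_C_mul, coeff_C_mul, coeff_X_one, coeff_X_pow, coeff_C,
    if_neg (by norm_num), if_neg (by norm_num)]
  ring

omit hV [CharZero K] in
lemma lin_coeff_one (a b : K) : (C a + C b * X : K[X]).coeff 1 = b := by
  rw [coeff_add, coeff_C_mul, coeff_X_one, coeff_C, if_neg (by norm_num)]
  ring

omit hV [CharZero K] in
lemma lin_coeff_zero (a b : K) : (C a + C b * X : K[X]).coeff 0 = a := by
  rw [coeff_zero_eq_eval_zero]
  simp

include hs

/-- First polarization. -/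
lemma pol1 (h0 : ∀ x ∈ V, tr (x ^ (2 * m + 4)) = c * q x x ^ (m + 2)) {x y : A} (hx : x ∈ V)
    (hy : y ∈ V) : tr (x ^ (2 * m + 3) * y) = c * q x x ^ (m + 1) * q x y := by
  obtain ⟨P, hP, hP1⟩ := lin_part hV (tr := tr) (y := y) hx 1 (m := 2 * m + 4) (by omega)
  have h := coeff_one_eq (P := P)
    (Q := C c * (C (q x x) + C (2 * q x y) * X + C (q y y) * X ^ 2) ^ (m + 2)) (by
      intro s
      rw [hP, mul_one, h0 _ (V.add_mem hx (V.smul_mem s hy)), eval_mul, eval_C, eval_pow,
        quad_line hx hy hs])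
  rw [hP1, coeff_C_mul, coeff_one_pow, quad_coeff_zero, quad_coeff_one, mul_one,
    show 2 * m + 4 - 1 = 2 * m + 3 by omega, show m + 2 - 1 = m + 1 by omega] at h
  have h2 : (2 * ((m : K) + 2)) ≠ 0 := by
    have : ((2 * (m + 2) : ℕ) : K) ≠ 0 := Nat.cast_ne_zero.2 (by omega)
    push_cast at this
    exact this
  apply mul_left_cancel₀ h2
  push_cast at h
  linear_combination h

/-- Second polarization. -/
lemma pol2 (h1 : ∀ x ∈ V, ∀ y ∈ V, tr (x ^ (2 * m + 3) * y) = c * q x x ^ (m + 1) * q x y)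
    {x y z : A} (hx : x ∈ V) (hy : y ∈ V) (hz : z ∈ V) :
    (2 * m + 3) * tr (x ^ (2 * m + 2) * z * y) = c * (2 * (m + 1) * q x x ^ m * q x z * q x y +
      q x x ^ (m + 1) * q z y) := by
  obtain ⟨P, hP, hP1⟩ := lin_part hV (tr := tr) (y := z) hx y (m := 2 * m + 3) (by omega)
  have h := coeff_one_eq (P := P)
    (Q := C c * (C (q x x) + C (2 * q x z) * X + C (q z z) * X ^ 2) ^ (m + 1) *
      (C (q x y) + C (q z y) * X)) (by
      intro s
      rw [hP, h1 _ (V.add_mem hx (V.smul_mem s hz)) _ hy, eval_mul, eval_mul, eval_C, eval_pow,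
        quad_line hx hz hs]
      simp only [eval_add, eval_mul, eval_C, eval_X, map_add, map_smul, LinearMap.add_apply,
        LinearMap.smul_apply, smul_eq_mul]
      ring)
  rw [hP1, mul_coeff_one, coeff_C_mul, coeff_C_mul, coeff_one_pow, coeff_zero_pow,
    quad_coeff_zero, quad_coeff_one, lin_coeff_one, lin_coeff_zero,
    show 2 * m + 3 - 1 = 2 * m + 2 by omega, show m + 1 - 1 = m by omega] at h
  push_cast at h
  linear_combination h

/-- Third polarization. -/
lemma pol3 (h2 : ∀ x ∈ V, ∀ y ∈ V, ∀ z ∈ V, (2 * m + 3) * tr (x ^ (2 * m + 2) * z * y) =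
      c * (2 * (m + 1) * q x x ^ m * q x z * q x y + q x x ^ (m + 1) * q z y))
    {x y z w : A} (hx : x ∈ V) (hy : y ∈ V) (hz : z ∈ V) (hw : w ∈ V) :
    (2 * m + 3) * tr (x ^ (2 * m + 1) * w * z * y) =
      c * (2 * m * q x x ^ (m - 1) * q x w * q x z * q x y +
        q x x ^ m * (q w z * q x y + q x z * q w y + q x w * q z y)) := by
  obtain ⟨P, hP, hP1⟩ := lin_part hV (tr := tr) (y := w) hx (z * y) (m := 2 * m + 2) (by omega)
  have h := coeff_one_eq (P := C (2 * m + 3 : K) * P)
    (Q := C c * (C (2 * (m + 1 : K)) *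
        (C (q x x) + C (2 * q x w) * X + C (q w w) * X ^ 2) ^ m *
        ((C (q x z) + C (q w z) * X) * (C (q x y) + C (q w y) * X)) +
      (C (q x x) + C (2 * q x w) * X + C (q w w) * X ^ 2) ^ (m + 1) * C (q z y))) (by
      intro s
      have e1 := h2 _ (V.add_mem hx (V.smul_mem s hw)) _ hy _ hz
      rw [eval_mul, eval_C, hP, ← mul_assoc ((x + s • w) ^ (2 * m + 2)), e1]
      rw [eval_mul, eval_C, eval_add, eval_mul, eval_mul, eval_C, eval_pow, quad_line hx hw hs,
        eval_mul, eval_mul, eval_pow, quad_line hx hw hs]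
      simp only [eval_add, eval_mul, eval_C, eval_X, map_add, map_smul, LinearMap.add_apply,
        LinearMap.smul_apply, smul_eq_mul]
      ring)
  rw [coeff_C_mul, hP1, coeff_C_mul, coeff_add, mul_coeff_one, coeff_C_mul, coeff_C_mul,
    mul_coeff_one, mul_coeff_zero, mul_coeff_one, coeff_one_pow, coeff_one_pow, coeff_zero_pow,
    coeff_zero_pow, quad_coeff_zero, quad_coeff_one, lin_coeff_one, lin_coeff_zero, lin_coeff_one,
    lin_coeff_zero, coeff_C_zero, coeff_C, if_neg (by norm_num),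
    show 2 * m + 2 - 1 = 2 * m + 1 by omega, show m + 1 - 1 = m by omega,
    ← mul_assoc (x ^ (2 * m + 1) * w)] at h
  have h3 : (2 * ((m : K) + 1)) ≠ 0 := by
    have : ((2 * (m + 1) : ℕ) : K) ≠ 0 := Nat.cast_ne_zero.2 (by omega)
    push_cast at this
    exact this
  apply mul_left_cancel₀ h3
  push_cast at h
  linear_combination h

/-- Fourth polarization. -/
lemma pol4 (h3 : ∀ x ∈ V, ∀ y ∈ V, ∀ z ∈ V, ∀ w ∈ V,
      (2 * m + 3) * tr (x ^ (2 * m + 1) * w * z * y) =
      c * (2 * m * q x x ^ (m - 1) * q x w * q x z * q x y +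
        q x x ^ m * (q w z * q x y + q x z * q w y + q x w * q z y)))
    {x y z w u : A} (hx : x ∈ V) (hy : y ∈ V) (hz : z ∈ V) (hw : w ∈ V) (hu : u ∈ V) :
    (2 * m + 3) * (2 * m + 1) * tr (x ^ (2 * m) * u * w * z * y) =
      c * (4 * m * (m - 1) * q x x ^ (m - 2) * (q x u * q x w * q x z * q x y) +
        2 * m * q x x ^ (m - 1) * (q u w * q x z * q x y + q x w * q u z * q x y +
          q x w * q x z * q u y + q x u * (q w z * q x y + q x z * q w y + q x w * q z y)) +
        q x x ^ m * (q w z * q u y + q u z * q w y + q u w * q z y)) := by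
  obtain ⟨P, hP, hP1⟩ := lin_part hV (tr := tr) (y := u) hx (w * (z * y)) (m := 2 * m + 1)
    (by omega)
  have h := coeff_one_eq (P := C (2 * m + 3 : K) * P)
    (Q := C c * (C (2 * (m : K)) *
        (C (q x x) + C (2 * q x u) * X + C (q u u) * X ^ 2) ^ (m - 1) *
        ((C (q x w) + C (q u w) * X) * ((C (q x z) + C (q u z) * X) *
          (C (q x y) + C (q u y) * X))) +
      (C (q x x) + C (2 * q x u) * X + C (q u u) * X ^ 2) ^ m *
        (C (q w z * q x y + q x z * q w y + q x w * q z y) +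
          C (q w z * q u y + q u z * q w y + q u w * q z y) * X))) (by
      intro s
      have e1 := h3 _ (V.add_mem hx (V.smul_mem s hu)) _ hy _ hz _ hw
      rw [eval_mul, eval_C, hP, ← mul_assoc ((x + s • u) ^ (2 * m + 1)),
        ← mul_assoc ((x + s • u) ^ (2 * m + 1) * w), e1]
      rw [eval_mul, eval_C, eval_add, eval_mul, eval_mul, eval_C, eval_pow, quad_line hx hu hs,
        eval_mul, eval_mul, eval_mul, eval_pow, quad_line hx hu hs]
      simp only [eval_add, eval_mul, eval_C, eval_X, map_add, map_smul, LinearMap.add_apply,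
        LinearMap.smul_apply, smul_eq_mul]
      ring)
  rw [coeff_C_mul, hP1, coeff_C_mul, coeff_add, mul_coeff_one, coeff_C_mul, coeff_C_mul,
    mul_coeff_one, mul_coeff_one, mul_coeff_zero, mul_coeff_zero, mul_coeff_one, coeff_one_pow,
    coeff_one_pow, coeff_zero_pow, coeff_zero_pow, quad_coeff_zero, quad_coeff_one,
    show 2 * m + 1 - 1 = 2 * m by omega,
    ← mul_assoc (x ^ (2 * m) * u), ← mul_assoc (x ^ (2 * m) * u * w)] at h
  simp only [mul_coeff_zero, lin_coeff_one, lin_coeff_zero] at h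
  rcases Nat.eq_zero_or_pos m with rfl | hm
  · simp only [Nat.cast_zero, mul_zero, zero_mul, zero_add, pow_zero, one_mul, mul_one] at h ⊢
    push_cast at h
    linear_combination h
  · obtain ⟨j, rfl⟩ : ∃ j, m = j + 1 := ⟨m - 1, by omega⟩
    rw [show j + 1 - 1 = j by omega] at h ⊢
    rw [show j + 1 - 2 = j - 1 by omega]
    push_cast at h ⊢
    linear_combination h

end Alg

end Pool.Agent.H846.HKn
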