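import Pool.Agent.H846.HKn.Lin
import Pool.Agent.H846.HKn.Pol
import Pool.Agent.H846.HKn.Defs
import Pool.Agent.H846.Det.Main
import Pool.Agent.H846.Det.Nil

/-!
# The operator of a primitive class of codimension two
-/

open CategoryTheory AlgebraicGeometry Finset

universe u v

namespace Pool.Agent.H846.HKn

section Alg

variable {K : Type*} [Field K] {A : Type*} [Ring A] [Algebra K A]

/-- Linear combinations of products and of given elements. -/
lemma exists_sum (V : Submodule K A) {m : ℕ} (r : Fin m → A) {z : A}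
    (h : InSpan K (IsProductOr (fun x => x ∈ V) r) z) :
    ∃ (n : ℕ) (x y : Fin n → V) (a : Fin m → K),
      z = ∑ i, (x i : A) * y i + ∑ j, a j • r j := by
  have h1 := h (Submodule.span K {a | ∃ x y, x ∈ V ∧ y ∈ V ∧ a = x * y} ⊔
    Submodule.span K (Set.range r)) (by
      rintro a (⟨x, y, hx, hy, rfl⟩ | ⟨j, rfl⟩)
      · exact Submodule.mem_sup_left (Submodule.subset_span ⟨x, y, hx, hy, rfl⟩)
      · exact Submodule.mem_sup_right (Submodule.subset_span ⟨j, rfl⟩))
  obtain ⟨s, hs, w, hw, rfl⟩ := Submodule.mem_sup.1 h1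
  obtain ⟨a, rfl⟩ := (Submodule.mem_span_range_iff_exists_fun K).1 hw
  have h2 : ∃ (n : ℕ) (x y : Fin n → V), s = ∑ i, (x i : A) * y i := by
    clear h h1
    induction hs using Submodule.span_induction with
    | mem b hb =>
      obtain ⟨x, y, hx, hy, rfl⟩ := hb
      exact ⟨1, fun _ => ⟨x, hx⟩, fun _ => ⟨y, hy⟩, by simp⟩
    | zero => exact ⟨0, fun _ => 0, fun _ => 0, by simp⟩
    | add b b' _ _ hb hb' =>
      obtain ⟨n, x, y, rfl⟩ := hb
      obtain ⟨n', x', y', rfl⟩ := hb'
      refine ⟨n + n', Fin.append x x', Fin.append y y', ?_⟩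
      rw [Fin.sum_univ_add]
      simp
    | smul c b _ hb =>
      obtain ⟨n, x, y, rfl⟩ := hb
      refine ⟨n, fun i => c • x i, y, ?_⟩
      rw [Finset.smul_sum]
      apply Finset.sum_congr rfl
      intro i _
      rw [Submodule.coe_smul, smul_mul_assoc]
  obtain ⟨n, x, y, rfl⟩ := h2
  exact ⟨n, x, y, a, rfl⟩

end Alg

open Pool.Agent.H914 Pool.Agent.H914.VarClass Pool.Agent.H914.VarClass.Obj
  Pool.Agent.H914.WeilCohomology Pool.Agent.H281R3.HT Pool.Agent.W552 Pool.Agent.W539.Ker
  Pool.Agent.R911.Iso Pool.Agent.H447 Pool.Agent.H846.Det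

variable {k : Type u} [Field k] {𝒱 : VarClass k} {ops : CycleOps 𝒱}
  {W : WeilCohomology.{u, v} ops} {X : 𝒱.Obj} {D : X.Cycles} {f : Module.End W.K (W.H X)}

/-- Multiplication by the class of a cycle is an algebraic operator. -/
lemma mul_aop {p : ℕ} {z : X.Cycles} (hz : X.IsCyc p z) :
    AOp W X X (LinearMap.mulLeft W.K (W.cl X z)) :=
  AOp.of_rop ⟨_, Realized.mulLeft hz, rfl⟩

/-- The projections are algebraic operators. -/
lemma proj_aop' (G : Gd W X D f) (i : ℕ) : AOp W X X (proj (W.isInternal X) i) :=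
  proj_aop G.fr.hD (hardLefschetz_of_fr G.fr) (lefschetzB_of_fr G.fr) i

/-- Elements of even degree commute with all elements. -/
lemma even_comm {i : ℕ} {a : W.H X} (ha : a ∈ W.gr X (2 * i)) (b : W.H X) : a * b = b * a := by
  refine gr_induction (W.isInternal X) (p := fun b => a * b = b * a) ?_ ?_ b
  swap
  · intro b b' hb hb'
    rw [mul_add, hb, hb', add_mul]
  intro j b hb
  rw [W.comm ha hb, mul_assoc, pow_mul]
  simp

/-- A class whose products with all classes of the complementary degree have trace zero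
vanishes. -/
lemma eq_zero_of_tr {i j : ℕ} {a : W.H X} (ha : a ∈ W.gr X i) (hij : i + j = 2 * X.dim)
    (h : ∀ b ∈ W.gr X j, W.tr X (b * a) = 0) : a = 0 := by
  apply nondeg_right
  intro b
  refine gr_induction (W.isInternal X) (p := fun b => W.tr X (b * a) = 0) ?_ ?_ b
  swap
  · intro b b' hb hb'
    rw [add_mul, map_add, hb, hb', add_zero]
  intro l b hb
  by_cases hl : l = j
  · subst hl; exact h b hb
  · exact W.tr_eq_zero (W.mul_mem hb ha) (by omega)

/-- The operator which is `x ↦ - st (a x) / (2 m + 2)!` on the cohomology of degree two, and zero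
in the other degrees. -/
noncomputable def sop (W : WeilCohomology.{u, v} ops) (X : 𝒱.Obj) (D : X.Cycles)
    (f : Module.End W.K (W.H X)) (m : ℕ) (a : W.H X) : Module.End W.K (W.H X) :=
  ((-((2 * m + 2).factorial : ℚ)⁻¹ : ℚ) : W.K) •
    (st W X D f * (LinearMap.mulLeft W.K a * proj (W.isInternal X) 2))

lemma sop_apply {m : ℕ} {a x : W.H X} (hx : x ∈ W.gr X 2) :
    sop W X D f m a x = ((-((2 * m + 2).factorial : ℚ)⁻¹ : ℚ) : W.K) • st W X D f (a * x) := by
  rw [sop, LinearMap.smul_apply, Module.End.mul_apply, Module.End.mul_apply,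
    proj_same (W.isInternal X) hx, LinearMap.mulLeft_apply]

lemma sop_ne {m : ℕ} {a x : W.H X} {j : ℕ} (hx : x ∈ W.gr X j) (hj : j ≠ 2) :
    sop W X D f m a x = 0 := by
  rw [sop, LinearMap.smul_apply, Module.End.mul_apply, Module.End.mul_apply,
    proj_ne (W.isInternal X) hx hj, map_zero, map_zero, smul_zero]

lemma sop_aop (G : Gd W X D f) {p m : ℕ} {z : X.Cycles} (hz : X.IsCyc p z) :
    AOp W X X (sop W X D f m (W.cl X z)) :=
  (G.sa.mul ((mul_aop hz).mul (proj_aop' G 2))).smul _

lemma sop_mem (G : Gd W X D f) {m : ℕ} (hd : X.dim = 2 * m + 4) {a : W.H X}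
    (ha : a ∈ W.gr X (2 * (2 * m + 2))) (x : W.H X) :
    sop W X D f m a x ∈ W.gr X 2 := by
  refine gr_induction (W.isInternal X) (p := fun x => sop W X D f m a x ∈ W.gr X 2) ?_ ?_ x
  swap
  · intro x x' hx hx'
    rw [map_add]
    exact add_mem hx hx'
  intro j x hx
  by_cases hj : j = 2
  · subst hj
    rw [sop_apply hx]
    apply Submodule.smul_mem
    have h1 := G.ls.star_mem (i := 2 * (2 * m + 2) + 2) (by omega) (W.mul_mem ha hx)
    rwa [show 2 * X.dim - (2 * (2 * m + 2) + 2) = 2 by omega] at h1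
  · rw [sop_ne hx hj]
    exact zero_mem _

lemma bf_sop (G : Gd W X D f) {m : ℕ} {a x y : W.H X} (hx : x ∈ W.gr X 2) :
    bf W X D f y (sop W X D f m a x) =
      ((-((2 * m + 2).factorial : ℚ)⁻¹ : ℚ) : W.K) * W.tr X (y * (a * x)) := by
  rw [sop_apply hx, map_smul, bf_apply, G.st_st_apply, smul_eq_mul]

/-- The operator is self-adjoint. -/
lemma sop_adj (G : Gd W X D f) {m : ℕ} (hd : X.dim = 2 * m + 4) {a : W.H X}
    (ha : a ∈ W.gr X (2 * (2 * m + 2))) :
    Adj W D f D f (sop W X D f m a) (sop W X D f m a) := by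
  intro p q
  refine gr_induction (W.isInternal X) (p := fun p => bf W X D f (sop W X D f m a p) q =
    bf W X D f p (sop W X D f m a q)) ?_ ?_ p
  swap
  · intro p p' hp hp'
    rw [map_add, map_add, LinearMap.add_apply, hp, hp', map_add, LinearMap.add_apply]
  intro i p hp
  refine gr_induction (W.isInternal X) (p := fun q => bf W X D f (sop W X D f m a p) q =
    bf W X D f p (sop W X D f m a q)) ?_ ?_ q
  swap
  · intro q q' hq hq'
    rw [map_add, map_add, map_add, hq, hq']
  intro j q hq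
  by_cases hi : i = 2
  · subst hi
    by_cases hj : j = 2
    · subst hj
      have h1 : bf W X D f (sop W X D f m a p) q = bf W X D f q (sop W X D f m a p) := by
        have := G.symm hq (sop_mem G hd ha p)
        rw [this]
        simp
      rw [h1, bf_sop G hp, bf_sop G hq]
      congr 2
      have h2 : p * (q * a) = q * a * p := even_comm (i := 1) hp _
      have h3 : a * q = q * a := even_comm ha _
      rw [h3, h2, mul_assoc]
    · rw [sop_ne hq hj, map_zero]
      exact G.fr.bf_deg (sop_mem G hd ha p) hq (Ne.symm hj)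
  · rw [sop_ne hp hi, map_zero, LinearMap.zero_apply]
    exact (G.fr.bf_deg hp (sop_mem G hd ha q) hi).symm

/-- The operator inverts the Lefschetz operator. -/
lemma sop_spec (G : Gd W X D f) {m : ℕ} (hd : X.dim = 2 * m + 4) {a : W.H X}
    (ha : a ∈ W.gr X (2 * (2 * m + 2)))
    (hLa : W.cl X D * a = 0) {x : W.H X} (hx : x ∈ W.gr X 2) :
    W.cl X D ^ (2 * m + 2) * sop W X D f m a x = a * x := by
  set L := LinearMap.mulLeft W.K (W.cl X D) with hL
  have hax : a * x ∈ W.gr X (2 * X.dim - 2) := by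
    have := W.mul_mem ha hx
    rwa [show 2 * (2 * m + 2) + 2 = 2 * X.dim - 2 by omega] at this
  obtain ⟨p, hp, hpa⟩ := (hardLefschetz_of_fr G.fr 2 (by omega)).2 _ hax
  rw [← hL, show X.dim - 2 = 2 * m + 2 by omega] at hpa
  have h3 : (L ^ (X.dim - 2 * 1 + 1)) p = 0 := by
    rw [show X.dim - 2 * 1 + 1 = 2 * m + 2 + 1 by omega, pow_succ', Module.End.mul_apply, hpa, hL,
      LinearMap.mulLeft_apply, ← mul_assoc, hLa, zero_mul]
  have hfac : ((2 * m + 2).factorial : W.K) ≠ 0 := Nat.cast_ne_zero.2 (Nat.factorial_ne_zero _)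
  have h4 : st W X D f (a * x) = (-((2 * m + 2).factorial : W.K)) • p := by
    rw [← sub_eq_zero]
    apply nondeg_right
    intro u
    have h5 := bf_L_pow G.fr (n := 1) (by omega) (x := p) hp h3 (j := 2 * m + 2) (by omega) u
    rw [← hL, hpa, bf_apply, show X.dim - 2 * 1 - (2 * m + 2) = 0 by omega] at h5
    rw [mul_sub, map_sub, h5, mul_smul_comm, map_smul, smul_eq_mul]
    simp
  have h6 : sop W X D f m a x = p := by
    rw [sop_apply hx, h4, smul_smul]
    push_cast
    rw [neg_mul_neg, inv_mul_cancel₀ hfac, one_smul]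
  rw [h6, ← hpa, hL, LinearMap.pow_mulLeft, LinearMap.mulLeft_apply]

end Pool.Agent.H846.HKn
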