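import Pool.Agent.H846.HKn.Defs

/-!
# Cohomology of degree two spanned by divisor classes of specialisations: definitions
-/

open CategoryTheory AlgebraicGeometry

universe u v

namespace Pool.Agent.H846.HKn

open Pool.Agent.H914 Pool.Agent.H914.VarClass Pool.Agent.H914.VarClass.Obj
  Pool.Agent.H281R3.HT Pool.Agent.R911.Iso Pool.Agent.W539.Ker Pool.Agent.H846.Det

variable {k : Type u} [Field k] {𝒱 : VarClass k} {ops : CycleOps 𝒱}
  {k₀ : Type u} [Field k₀] {𝒱₀ : VarClass k₀} {ops₀ : CycleOps 𝒱₀}

/-- All cycles of codimension `dim X` on `X × X` specialise to cycles on `X₀ × X₀`. -/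
def SquareSpecializes {W : WeilCohomology.{u, v} ops} {W₀ : WeilCohomology.{u, v} ops₀}
    {P : Polarized 𝒱} {P₀ : Polarized 𝒱₀} (S : Place W W₀ P P₀) : Prop :=
  ∀ v, (P.X.prod P.X).IsCyc P.X.dim v →
    ∃ v₀, (P₀.X.prod P₀.X).IsCyc P₀.X.dim v₀ ∧ SpecializesTo S.s S.s v v₀

/-- The Hodge index theorem holds for `X₀`, and numerical and homological equivalence agree for
divisors on `X₀` (both are known for all varieties). -/
def DivisorTheorems (W₀ : WeilCohomology.{u, v} ops₀) (P₀ : Polarized 𝒱₀) : Prop :=
  HodgeIn W₀ P₀ 0 ∧ HodgeIn W₀ P₀ 1 ∧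
    ∀ w, P₀.X.IsCyc 1 w → NumZero ops₀ P₀.X 1 w → classOf W₀ P₀.X w = 0

/-- The class `x` of `X` becomes the class of a divisor at some place: on a variety `X₀` over some
field `k₀`, with the same cohomology ring, which satisfies the Lefschetz standard conjecture and
the known theorems on divisors, and to which all cycles of codimension `dim X` on `X × X`
specialise. -/
def BecomesDivisor (W : WeilCohomology.{u, v} ops) (P : Polarized 𝒱) (x : W.H P.X) : Prop :=
  ∃ (k₀ : Type u) (_ : Field k₀) (𝒱₀ : VarClass k₀) (ops₀ : CycleOps 𝒱₀)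
    (W₀ : WeilCohomology.{u, v} ops₀) (P₀ : Polarized 𝒱₀) (S : Place W W₀ P P₀),
    IsLefschetz W₀ P₀ ∧ SquareSpecializes S ∧ DivisorTheorems W₀ P₀ ∧
    ∃ w, P₀.X.IsCyc 1 w ∧ isoMap S.s x = classOf W₀ P₀.X w

/-- The map `g` is a symmetry: an automorphism of the cohomology ring which commutes with the
cycles of codimension `dim X` on `X × X` (for instance given by an element of a small open
subgroup of the geometric monodromy group). -/
def IsSymmetry (W : WeilCohomology.{u, v} ops) (P : Polarized 𝒱) (g : CohIso W W P.X P.X) :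
    Prop :=
  ∀ v, (P.X.prod P.X).IsCyc P.X.dim v → SpecializesTo g g v v

/-- The group `H²(X)` is spanned, over the coefficient field, by the images under symmetries of
classes which become classes of divisors at places (which may depend on the classes). -/
def SpannedByDivisors (W : WeilCohomology.{u, v} ops) (P : Polarized 𝒱) : Prop :=
  ∀ x, InDeg W P.X 2 x → InSpan W.K (fun y => ∃ g w, IsSymmetry W P g ∧
    BecomesDivisor W P w ∧ isoMap g w = y) x

end Pool.Agent.H846.HKn
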