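import Pool.Agent.H846.HKn.Fuj

/-!
# The square of a primitive class in the symmetric square
-/

open CategoryTheory AlgebraicGeometry Finset

universe u v

namespace Pool.Agent.H846.HKn

open Pool.Agent.H914 Pool.Agent.H914.VarClass Pool.Agent.H914.VarClass.Obj
  Pool.Agent.H914.WeilCohomology Pool.Agent.H281R3.HT Pool.Agent.W552 Pool.Agent.W539.Ker
  Pool.Agent.R911.Iso Pool.Agent.H447 Pool.Agent.H846.Det

variable {k : Type u} [Field k] {𝒱 : VarClass k} {ops : CycleOps 𝒱}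
  {W : WeilCohomology.{u, v} ops} {X : 𝒱.Obj} {D : X.Cycles} {f : Module.End W.K (W.H X)}

section Form

variable {K : Type*} [Field K] {V : Type*} [AddCommGroup V] [Module K V]
  (q : V →ₗ[K] V →ₗ[K] K) (hs : ∀ x y, q x y = q y x) {n : ℕ} (x y : Fin n → V)

lemma q_symOp (v w : V) : q w (HKn.symOp q x y v) =
    ∑ i, (q (x i) v * q w (y i) + q (y i) v * q w (x i)) := by
  rw [symOp_apply, map_sum]
  apply Finset.sum_congr rfl
  intro i _
  rw [map_add, map_smul, map_smul, smul_eq_mul, smul_eq_mul]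

include hs in
lemma q_symOp_symOp (v : V) : q (HKn.symOp q x y v) (HKn.symOp q x y v) =
    ∑ i, ∑ j, (q v (y i) * q (x i) (x j) * q v (y j) + q v (y i) * q v (x j) * q (x i) (y j) +
      q v (x i) * (q (y i) (x j) * q v (y j) + q v (x j) * q (y i) (y j))) := by
  rw [q_symOp]
  apply Finset.sum_congr rfl
  intro i _
  rw [hs _ (y i), hs _ (x i), q_symOp, q_symOp, Finset.mul_sum, Finset.mul_sum,
    ← Finset.sum_add_distrib]
  apply Finset.sum_congr rfl
  intro j _
  rw [hs (x i) v, hs (y i) v, hs (x j) v, hs (y j) v]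
  ring

end Form

section Fujiki

variable {q : W.H X →ₗ[W.K] W.H X →ₗ[W.K] W.K} {c : W.K} {m : ℕ}
  (hF : Fujiki (fun x => W.tr X x) (fun x => x ∈ W.gr X 2) (fun x y => q x y) c (m + 2))
  (G : Gd W X D f) (hd : X.dim = 2 * m + 4) (h1 : (1 : W.H X) ≠ 0)

include hF G hd h1

lemma c_ne : c ≠ 0 ∧ rq q (dv W G.fr.hD) (dv W G.fr.hD) ≠ 0 := by
  have h3 := tr_D_ne G h1
  rw [hd] at h3
  have h4 : W.tr X (W.cl X D ^ (2 * m + 4)) = _ := fuj0 hF (dv W G.fr.hD)
  rw [h4] at h3
  constructor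
  · rintro rfl
    apply h3
    simp
  · intro h0
    apply h3
    rw [h0]
    simp

omit h1 in
/-- The form is nondegenerate. -/
lemma q_nondeg {v : W.gr X 2} (h : ∀ y, rq q y v = 0) : v = 0 := by
  apply Subtype.ext
  apply (hardLefschetz_of_fr G.fr 2 (by omega)).1 v v.2
  have hv : W.cl X D ^ (2 * m + 2) * (v : W.H X) ∈ W.gr X (2 * (2 * m + 2) + 2) :=
    W.mul_mem (pow_mem_gr G.fr.hD _) v.2
  rw [show X.dim - 2 = 2 * m + 2 by omega, LinearMap.pow_mulLeft, LinearMap.mulLeft_apply]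
  apply eq_zero_of_tr (j := 2) hv (by omega)
  intro b hb
  have h2 := fuj2 hF (dv W G.fr.hD) v ⟨b, hb⟩
  rw [h, h, mul_zero, mul_zero, add_zero, mul_zero] at h2
  have h3 : (2 * m + 3 : W.K) ≠ 0 := by
    have : ((2 * m + 3 : ℕ) : W.K) ≠ 0 := Nat.cast_ne_zero.2 (by omega)
    push_cast at this
    exact this
  have h4 := (mul_eq_zero.1 h2).resolve_left h3
  rw [← h4]
  have h5 : b * W.cl X D ^ (2 * m + 2) = W.cl X D ^ (2 * m + 2) * b := even_comm (i := 1) hb _
  rw [← mul_assoc, h5]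
  rfl

variable {n : ℕ} (x y : Fin n → W.gr X 2)

omit hF G hd h1 in
lemma sum_mem : (∑ i, (x i : W.H X) * y i) ∈ W.gr X 4 := by
  apply Submodule.sum_mem
  intro i _
  have := W.mul_mem (x i).2 (y i).2
  exact this

omit hF G hd h1 in
lemma pow_sum_mem (hD : X.IsCyc 1 D) : W.cl X D ^ (2 * m) * (∑ i, (x i : W.H X) * y i) ∈
    W.gr X (2 * (2 * m + 2)) := by
  have := W.mul_mem (pow_mem_gr (W := W) hD (2 * m)) (sum_mem x y)
  rwa [show 2 * (2 * m) + 4 = 2 * (2 * m + 2) by ring] at this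

/-- The operator of the class on the cohomology of degree two. -/
noncomputable def topr (G : Gd W X D f) (hd : X.dim = 2 * m + 4) (x y : Fin n → W.gr X 2) :
    W.gr X 2 →ₗ[W.K] W.gr X 2 :=
  (sop W X D f m (W.cl X D ^ (2 * m) * ∑ i, (x i : W.H X) * y i)).restrict
    (fun v _ => sop_mem G hd (pow_sum_mem x y G.fr.hD) v)

omit hF h1 in
lemma topr_coe (v : W.gr X 2) : ((topr G hd x y v : W.gr X 2) : W.H X) =
    sop W X D f m (W.cl X D ^ (2 * m) * ∑ i, (x i : W.H X) * y i) v := rfl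

variable (hL : W.cl X D * (W.cl X D ^ (2 * m) * ∑ i, (x i : W.H X) * y i) = 0)

include hL

/-- The divisor class is an eigenvector of the symmetric tensor. -/
lemma exists_mu : ∃ μ : W.K, symOp (rq q) x y (dv W G.fr.hD) = μ • dv W G.fr.hD ∧
    ∑ i, rq q (x i) (y i) = -(m + 1) * μ ∧
    2 * ∑ i, rq q (dv W G.fr.hD) (x i) * rq q (dv W G.fr.hD) (y i) =
      μ * rq q (dv W G.fr.hD) (dv W G.fr.hD) := by
  obtain ⟨hc, hdd⟩ := c_ne hF G hd h1
  set E := dv W G.fr.hD with hE
  set δ := rq q E E with hδ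
  set t := ∑ i, rq q (x i) (y i) with ht
  set ρ := ∑ i, rq q E (x i) * rq q E (y i) with hρ
  have hsy := rq_symm hF
  have h3 : (2 * m + 3 : W.K) ≠ 0 := by
    have : ((2 * m + 3 : ℕ) : W.K) ≠ 0 := Nat.cast_ne_zero.2 (by omega)
    push_cast at this
    exact this
  have key : symOp (rq q) x y E = (-(t + 2 * m / δ * ρ)) • E := by
    rw [← sub_eq_zero]
    apply q_nondeg hF G hd
    intro z
    have h4 : ∑ i, (2 * m + 3) * W.tr X (W.cl X D ^ (2 * m + 1) * x i * y i * z) = 0 := by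
      rw [← Finset.mul_sum, ← map_sum]
      have h5 : ∑ i, W.cl X D ^ (2 * m + 1) * (x i : W.H X) * y i * z =
          (W.cl X D * (W.cl X D ^ (2 * m) * ∑ i, (x i : W.H X) * y i)) * z := by
        rw [← mul_assoc, ← pow_succ', Finset.mul_sum, Finset.sum_mul]
        apply Finset.sum_congr rfl
        intro i _
        rw [mul_assoc (W.cl X D ^ (2 * m + 1))]
      rw [h5, hL, zero_mul, map_zero, mul_zero]
    have h6 : ∑ i, c * (2 * m * δ ^ (m - 1) * rq q E (x i) * rq q E (y i) * rq q E z +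
        δ ^ m * (rq q (x i) (y i) * rq q E z + rq q E (y i) * rq q (x i) z +
          rq q E (x i) * rq q (y i) z)) = 0 := by
      rw [← h4]
      exact Finset.sum_congr rfl (fun i _ => (fuj3 hF E z (y i) (x i)).symm)
    have h7 : ∑ i, c * (2 * m * δ ^ (m - 1) * rq q E (x i) * rq q E (y i) * rq q E z +
        δ ^ m * (rq q (x i) (y i) * rq q E z + rq q E (y i) * rq q (x i) z +
          rq q E (x i) * rq q (y i) z)) =
        c * δ ^ m * (rq q z (symOp (rq q) x y E) + t * rq q E z +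
          2 * m / δ * ρ * rq q E z) := by
      rw [q_symOp, hρ, ht]
      simp only [mul_add, Finset.mul_sum, Finset.sum_mul]
      simp only [← Finset.sum_add_distrib]
      apply Finset.sum_congr rfl
      intro i _
      rw [show 2 * (m : W.K) * δ ^ (m - 1) = 2 * (m * δ ^ (m - 1)) by ring, pow_one' hdd m,
        hsy (x i) E, hsy (y i) E, hsy z (y i), hsy z (x i)]
      field_simp
      ring
    rw [h7] at h6
    have h8 := (mul_eq_zero.1 h6).resolve_left (mul_ne_zero hc (pow_ne_zero _ hdd))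
    rw [map_sub, map_smul, smul_eq_mul, hsy z E]
    linear_combination h8
  obtain ⟨μ, hμ⟩ : ∃ μ : W.K, μ = -(t + 2 * m / δ * ρ) := ⟨_, rfl⟩
  rw [← hμ] at key
  have h9 : 2 * ρ = μ * δ := by
    have h10 : rq q E (symOp (rq q) x y E) = 2 * ρ := by
      rw [q_symOp, hρ, Finset.mul_sum]
      apply Finset.sum_congr rfl
      intro i _
      rw [hsy (x i) E, hsy (y i) E]
      ring
    rw [← h10, key, map_smul, smul_eq_mul]
  refine ⟨μ, key, ?_, h9⟩
  have h11 : 2 * m / δ * ρ = m * μ := by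
    have : ρ = μ * δ / 2 := by rw [← h9]; ring
    rw [this]
    field_simp
  rw [h11] at hμ
  linear_combination hμ

lemma q_D_topr (v : W.gr X 2) : rq q (dv W G.fr.hD) (topr G hd x y v) = 0 := by
  obtain ⟨hc, hdd⟩ := c_ne hF G hd h1
  have h2 := fuj1 hF (dv W G.fr.hD) (topr G hd x y v)
  have h3 := sop_spec G hd (pow_sum_mem x y G.fr.hD) hL v.2
  have h4 : W.tr X (W.cl X D ^ (2 * m + 3) * (topr G hd x y v : W.gr X 2)) = 0 := by
    rw [topr_coe, show 2 * m + 3 = 2 * m + 2 + 1 by ring, pow_succ', mul_assoc, h3, ← mul_assoc,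
      hL, zero_mul, map_zero]
  have h5 : W.tr X (W.cl X D ^ (2 * m + 3) * (topr G hd x y v : W.gr X 2)) = _ := h2
  rw [h4] at h5
  exact (mul_eq_zero.1 h5.symm).resolve_left (mul_ne_zero hc (pow_ne_zero _ hdd))

/-- The operator is the operator of the symmetric tensor, up to a scalar operator. -/
lemma topr_eq {μ : W.K} (hμ1 : symOp (rq q) x y (dv W G.fr.hD) = μ • dv W G.fr.hD)
    (hμ2 : ∑ i, rq q (x i) (y i) = -(m + 1) * μ)
    (hμ3 : 2 * ∑ i, rq q (dv W G.fr.hD) (x i) * rq q (dv W G.fr.hD) (y i) =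
      μ * rq q (dv W G.fr.hD) (dv W G.fr.hD)) :
    ((2 * m + 1) * rq q (dv W G.fr.hD) (dv W G.fr.hD)) • topr G hd x y =
      symOp (rq q) x y - μ • (1 : Module.End W.K (W.gr X 2)) := by
  obtain ⟨hc, hdd⟩ := c_ne hF G hd h1
  set E := dv W G.fr.hD with hE
  set δ := rq q E E with hδ
  set t := ∑ i, rq q (x i) (y i) with ht
  set ρ := ∑ i, rq q E (x i) * rq q E (y i) with hρ
  have hsy := rq_symm hF
  apply LinearMap.ext
  intro v
  rw [← sub_eq_zero]
  apply q_nondeg hF G hd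
  intro w
  have h2 := fuj2 hF E (topr G hd x y v) w
  rw [q_D_topr hF G hd h1 x y hL, mul_zero, zero_add, ← hδ] at h2
  have h3 := sop_spec G hd (pow_sum_mem x y G.fr.hD) hL v.2
  have h4 : W.tr X ((E : W.H X) ^ (2 * m + 2) * w * (topr G hd x y v : W.gr X 2)) =
      ∑ i, W.tr X ((E : W.H X) ^ (2 * m) * x i * y i * w * v) := by
    have h5 : (E : W.H X) ^ (2 * m + 2) * (w : W.H X) =
        w * (E : W.H X) ^ (2 * m + 2) := (even_comm (i := 1) w.2 _).symm
    rw [h5, mul_assoc]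
    have h6 : (E : W.H X) ^ (2 * m + 2) * ((topr G hd x y v : W.gr X 2) : W.H X) =
      W.cl X D ^ (2 * m) * (∑ i, (x i : W.H X) * y i) * v := h3
    rw [h6, ← mul_assoc, even_comm (i := 1) w.2, Finset.mul_sum, Finset.sum_mul, Finset.sum_mul,
      map_sum]
    apply Finset.sum_congr rfl
    intro i _
    rw [← mul_assoc (W.cl X D ^ (2 * m))]
    rfl
  have h7 : ∑ i, (2 * m + 3) * (2 * m + 1) *
      W.tr X ((E : W.H X) ^ (2 * m) * x i * y i * w * v) =
      c * δ ^ m * (rq q w (symOp (rq q) x y v) + t * rq q w v +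
        2 * m / δ * (t * rq q E w * rq q E v + rq q w (symOp (rq q) x y E) * rq q E v +
          rq q v (symOp (rq q) x y E) * rq q E w + ρ * rq q w v) +
        4 * m * (m - 1) / δ ^ 2 * (ρ * rq q E w * rq q E v)) := by
    rw [Finset.sum_congr rfl (fun i _ => fuj4 hF E v w (y i) (x i))]
    rw [← hδ,
      show 4 * (m : W.K) * (m - 1) * δ ^ (m - 2) = 4 * (m * (m - 1) * δ ^ (m - 2)) by ring,
      show 2 * (m : W.K) * δ ^ (m - 1) = 2 * (m * δ ^ (m - 1)) by ring, pow_one' hdd m,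
      pow_two' hdd m]
    rw [q_symOp, q_symOp, q_symOp, hρ, ht]
    simp only [mul_add, Finset.mul_sum, Finset.sum_mul]
    simp only [← Finset.sum_add_distrib]
    apply Finset.sum_congr rfl
    intro i _
    rw [hsy (x i) E, hsy (y i) E, hsy w (y i), hsy w (x i), hsy v (y i),
      hsy v (x i)]
    field_simp
    ring
  have hρ' : ρ = μ * δ / 2 := by
    rw [← hμ3]; ring
  rw [hμ1, map_smul, map_smul, smul_eq_mul, smul_eq_mul, hρ', hμ2] at h7
  rw [← Finset.mul_sum, ← h4] at h7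
  have h8 : (2 * m + 1) * (c * (δ ^ (m + 1) * rq q w (topr G hd x y v))) =
      c * δ ^ m * (rq q w (symOp (rq q) x y v) + -(m + 1) * μ * rq q w v +
        2 * m / δ * (-(m + 1) * μ * rq q E w * rq q E v + μ * rq q w E * rq q E v +
          μ * rq q v E * rq q E w + μ * δ / 2 * rq q w v) +
        4 * m * (m - 1) / δ ^ 2 * (μ * δ / 2 * rq q E w * rq q E v)) := by
    rw [← h7, ← h2]
    ring
  have h9 : (2 * m + 1) * δ * rq q w (topr G hd x y v) =
      rq q w (symOp (rq q) x y v) - μ * rq q w v := by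
    apply mul_left_cancel₀ (mul_ne_zero hc (pow_ne_zero m hdd))
    have h10 : c * δ ^ m * ((2 * m + 1) * δ * rq q w (topr G hd x y v)) =
        (2 * m + 1) * (c * (δ ^ (m + 1) * rq q w (topr G hd x y v))) := by ring
    rw [h10, h8, hsy w E, hsy v E]
    field_simp
    ring
  rw [map_sub, LinearMap.smul_apply, map_smul, smul_eq_mul, h9, LinearMap.sub_apply, map_sub,
    LinearMap.smul_apply, Module.End.one_apply, map_smul, smul_eq_mul, sub_self]

/-- **The square of a primitive class in the symmetric square of the cohomology of degree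
two.** -/
theorem tr_sq :
    2 * (2 * m + 3) * W.tr X (W.cl X D ^ (2 * m) *
      ((∑ i, (x i : W.H X) * y i) * (∑ i, (x i : W.H X) * y i))) =
      (2 * m + 1) * W.tr X (W.cl X D ^ (2 * m + 4)) *
        (LinearMap.trace W.K (W.H X)
          (sop W X D f m (W.cl X D ^ (2 * m) * ∑ i, (x i : W.H X) * y i) *
          sop W X D f m (W.cl X D ^ (2 * m) * ∑ i, (x i : W.H X) * y i)) -
        (LinearMap.trace W.K (W.H X)
          (sop W X D f m (W.cl X D ^ (2 * m) * ∑ i, (x i : W.H X) * y i))) ^ 2 /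
          (Module.finrank W.K (W.gr X 2) + 2 * m + 2)) := by
  obtain ⟨hc, hdd⟩ := c_ne hF G hd h1
  obtain ⟨μ, hμ1, hμ2, hμ3⟩ := exists_mu hF G hd h1 x y hL
  have h3 := trace_formula (rq q) (rq_symm hF) x y (topr G hd x y) _ μ m
    (topr_eq hF G hd h1 x y hL hμ1 hμ2 hμ3) hμ2
  set S := sop W X D f m (W.cl X D ^ (2 * m) * ∑ i, (x i : W.H X) * y i) with hS
  have h4 : LinearMap.trace W.K (W.gr X 2) (topr G hd x y) = LinearMap.trace W.K (W.H X) S :=
    LinearMap.trace_restrict_eq_of_forall_mem (W.gr X 2) S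
      (fun v => sop_mem G hd (pow_sum_mem x y G.fr.hD) v)
  have h5 : LinearMap.trace W.K (W.gr X 2) (topr G hd x y * topr G hd x y) =
      LinearMap.trace W.K (W.H X) (S * S) := by
    have h6 := LinearMap.trace_restrict_eq_of_forall_mem (W.gr X 2) (S * S)
      (fun v => sop_mem G hd (pow_sum_mem x y G.fr.hD) (S v))
    rw [← h6]
    rfl
  rw [h4, h5] at h3
  set E := dv W G.fr.hD with hE
  set δ := rq q E E with hδ
  set t := ∑ i, rq q (x i) (y i) with ht
  set ρ := ∑ i, rq q E (x i) * rq q E (y i) with hρ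
  set Z := ∑ i, ∑ j, (rq q (x i) (x j) * rq q (y i) (y j) + rq q (x i) (y j) * rq q (y i) (x j))
    with hZ
  have hsy := rq_symm hF
  have h6 : W.tr X (W.cl X D ^ (2 * m) *
      ((∑ i, (x i : W.H X) * y i) * (∑ i, (x i : W.H X) * y i))) =
      ∑ i, ∑ j, W.tr X ((E : W.H X) ^ (2 * m) * x i * y i * x j * y j) := by
    rw [Finset.sum_mul, Finset.mul_sum, map_sum]
    apply Finset.sum_congr rfl
    intro i _
    rw [Finset.mul_sum, Finset.mul_sum, map_sum]
    apply Finset.sum_congr rfl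
    intro j _
    rw [← mul_assoc, ← mul_assoc, ← mul_assoc]
    rfl
  have h7 : (2 * m + 3) * (2 * m + 1) * W.tr X (W.cl X D ^ (2 * m) *
      ((∑ i, (x i : W.H X) * y i) * (∑ i, (x i : W.H X) * y i))) =
      c * δ ^ m * (t * t + Z + 2 * m / δ * (t * ρ + ρ * t +
        rq q (symOp (rq q) x y E) (symOp (rq q) x y E)) +
          4 * m * (m - 1) / δ ^ 2 * (ρ * ρ)) := by
    have tt : t * t = ∑ i, ∑ j, rq q (x i) (y i) * rq q (x j) (y j) := by
      rw [ht, Finset.sum_mul_sum]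
    have tρ : t * ρ = ∑ i, ∑ j, rq q (x i) (y i) * (rq q E (x j) * rq q E (y j)) := by
      rw [ht, hρ, Finset.sum_mul_sum]
    have ρt : ρ * t = ∑ i, ∑ j, (rq q E (x i) * rq q E (y i)) * rq q (x j) (y j) := by
      rw [ht, hρ, Finset.sum_mul_sum]
    have ρρ : ρ * ρ = ∑ i, ∑ j, (rq q E (x i) * rq q E (y i)) *
        (rq q E (x j) * rq q E (y j)) := by
      rw [hρ, Finset.sum_mul_sum]
    rw [h6, q_symOp_symOp _ hsy, hZ, tt, tρ, ρt, ρρ, Finset.mul_sum]
    simp only [Finset.mul_sum]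
    have e1 : ∀ i j, (2 * m + 3) * (2 * m + 1) *
        W.tr X ((E : W.H X) ^ (2 * m) * x i * y i * x j * y j) = _ :=
      fun i j => fuj4 hF E (y j) (x j) (y i) (x i)
    simp only [e1]
    simp only [← hδ,
      show 4 * (m : W.K) * (m - 1) * δ ^ (m - 2) = 4 * (m * (m - 1) * δ ^ (m - 2)) by ring,
      show 2 * (m : W.K) * δ ^ (m - 1) = 2 * (m * δ ^ (m - 1)) by ring, pow_one' hdd m,
      pow_two' hdd m]
    simp only [mul_add, Finset.mul_sum]
    simp only [← Finset.sum_add_distrib]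
    apply Finset.sum_congr rfl
    intro i _
    apply Finset.sum_congr rfl
    intro j _
    field_simp
    ring
  have hρ' : ρ = μ * δ / 2 := by
    rw [← hμ3]; ring
  have hSD : rq q (symOp (rq q) x y E) (symOp (rq q) x y E) = μ ^ 2 * δ := by
    rw [hμ1, map_smul, map_smul (rq q), LinearMap.smul_apply, smul_eq_mul, smul_eq_mul, ← hδ]
    ring
  have h8 : W.tr X (W.cl X D ^ (2 * m + 4)) = c * δ ^ (m + 2) := fuj0 hF E
  rw [h8]
  have h9 : (2 * m + 1 : W.K) ≠ 0 := by
    have : ((2 * m + 1 : ℕ) : W.K) ≠ 0 := Nat.cast_ne_zero.2 (by omega)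
    push_cast at this
    exact this
  apply mul_left_cancel₀ h9
  have h10 : (2 * m + 1) * (2 * (2 * m + 3) * W.tr X (W.cl X D ^ (2 * m) *
      ((∑ i, (x i : W.H X) * y i) * (∑ i, (x i : W.H X) * y i)))) =
      2 * ((2 * m + 3) * (2 * m + 1) * W.tr X (W.cl X D ^ (2 * m) *
      ((∑ i, (x i : W.H X) * y i) * (∑ i, (x i : W.H X) * y i)))) := by ring
  rw [h10, h7, hSD, hρ']
  have h11 : 2 * (c * δ ^ m * (t * t + Z + 2 * m / δ * (t * (μ * δ / 2) + μ * δ / 2 * t +
      μ ^ 2 * δ) + 4 * m * (m - 1) / δ ^ 2 * (μ * δ / 2 * (μ * δ / 2)))) =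
      c * δ ^ m * (2 * (t ^ 2 + Z + 2 * m * (t * μ + μ ^ 2) + m * (m - 1) * μ ^ 2)) := by
    field_simp
    ring
  rw [h11, h3]
  ring

end Fujiki

end Pool.Agent.H846.HKn
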